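import Mathlib

/-! Finite graph part of the single current inequality `P_{3J}(u <-> x) >= <s_u s_x>_J <s_u s_x>_{3J}`.
`Ω` or `E` is a finite type of edges (or edge copies), `a o`, `b o` are the ends of `o`. -/

set_option autoImplicit false

namespace Pool.Agent.TC

open Finset

/-- Incidence mod 2 of the vertex `v` with an edge with ends `p`, `q`. -/
def inc {V : Type*} [DecidableEq V] (p q v : V) : ZMod 2 :=
  (if p = v then 1 else 0) + (if q = v then 1 else 0)

/-- The edge set `X` has sources `D`. -/
def SrcS {V Ω : Type*} [DecidableEq V] (a b : Ω → V) (X : Finset Ω) (D : V → ZMod 2) : Prop :=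
  ∀ v, ∑ o ∈ X, inc (a o) (b o) v = D v

/-- The current `n` has sources `D`. -/
def Src {V E : Type*} [DecidableEq V] [Fintype E] (a b : E → V) (n : E → ℕ) (D : V → ZMod 2) :
    Prop := ∀ v, ∑ e, (n e : ZMod 2) * inc (a e) (b e) v = D v

/-- `p` and `q` are joined by a path of edges with property `P`. -/
def Cn {V Ω : Type*} (a b : Ω → V) (P : Ω → Prop) : V → V → Prop :=
  Relation.ReflTransGen (fun p q => ∃ o, P o ∧ ((a o = p ∧ b o = q) ∨ (a o = q ∧ b o = p)))

/-- Weight of a current. -/
noncomputable def W {E : Type*} [Fintype E] (J : E → ℝ) (n : E → ℕ) : ℝ :=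
  ∏ e, J e ^ n e / (n e).factorial

open Classical in
/-- Partition function of currents with sources `D`. -/
noncomputable def ZD {V E : Type*} [DecidableEq V] [Fintype E] (a b : E → V) (J : E → ℝ)
    (D : V → ZMod 2) : ℝ :=
  ∑' n : E → ℕ, if Src a b n D then W J n else 0

open Classical in
/-- Sourceless currents in whose trace `u` and `x` are joined. -/
noncomputable def ZC {V E : Type*} [DecidableEq V] [Fintype E] (a b : E → V) (J : E → ℝ)
    (u x : V) : ℝ :=
  ∑' n : E → ℕ, if Src a b n (fun _ => 0) ∧ Cn a b (fun e => 0 < n e) u x then W J n else 0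

/-- Spin of the vertex `v` in the configuration with minus spins on `T`. -/
def spin {V : Type*} [DecidableEq V] (T : Finset V) (v : V) : ℝ := if v ∈ T then -1 else 1

open Classical in
/-- Spin configurations (on the vertex set `S`) constant on the edges of `w`, weighted with `f`. -/
noncomputable def KK {V Ω : Type*} (S : Finset V) (a b : Ω → V) (w : Finset Ω)
    (f : Finset V → ℝ) : ℝ :=
  ∑ T ∈ S.powerset, if ∀ o ∈ w, (a o ∈ T ↔ b o ∈ T) then f T else 0

end Pool.Agent.TC
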