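import Pool.Agent.SRC.Defs
import Pool.Agent.TC.Defs

/-! Ising model on finite vertex sets of `ℤ^d`, free and plus boundary conditions. A spin configuration on `S`
is given by the set `T ⊆ S` of its minus spins; the spins outside `S` are plus. -/

set_option autoImplicit false

namespace Pool.Agent.TC

open Finset Pool.Agent.SRC

/-- `χ` is a character of the group of finite sets with symmetric difference. -/
def IsChar {V : Type*} [DecidableEq V] (χ : Finset V → ℝ) : Prop :=
  (∀ T, χ T = 1 ∨ χ T = -1) ∧ ∀ T U, χ (symmDiff T U) = χ T * χ U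

/-- Unnormalised expectation of `f` for the interaction `∑ J_i χ_i`. -/
noncomputable def GZ {V ι : Type*} (S : Finset V) (E : Finset ι) (χ : ι → Finset V → ℝ) (J : ι → ℝ)
    (f : Finset V → ℝ) : ℝ :=
  ∑ T ∈ S.powerset, f T * Real.exp (∑ i ∈ E, J i * χ i T)

/-- The edges of `ℤ^d` with at least one end in `S`. -/
def etg {d : ℕ} (S : Finset (Vx d)) : Finset (Ed d) :=
  (S ×ˢ (Finset.univ : Finset (Fin d))) ∪
    (S ×ˢ (Finset.univ : Finset (Fin d))).image (fun p => (p.1 - uv p.2, p.2))

/-- Product of the spins at the ends of an edge. -/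
def bond {d : ℕ} (e : Ed d) (T : Finset (Vx d)) : ℝ := spin T e.1 * spin T (tip e)

/-- Unnormalised expectation on `S` with interaction on the edge set `E`. -/
noncomputable def GI {d : ℕ} (S : Finset (Vx d)) (E : Finset (Ed d)) (β : ℝ)
    (f : Finset (Vx d) → ℝ) : ℝ :=
  ∑ T ∈ S.powerset, f T * Real.exp (β * ∑ e ∈ E, bond e T)

/-- Gibbs expectation. -/
noncomputable def av {d : ℕ} (S : Finset (Vx d)) (E : Finset (Ed d)) (β : ℝ)
    (f : Finset (Vx d) → ℝ) : ℝ := GI S E β f / GI S E β (fun _ => 1)

/-- Two-point function with free boundary conditions. -/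
noncomputable def cf {d : ℕ} (S : Finset (Vx d)) (β : ℝ) (u v : Vx d) : ℝ :=
  av S (edg S) β (fun T => spin T u * spin T v)

/-- Two-point function with plus boundary conditions. -/
noncomputable def cp {d : ℕ} (S : Finset (Vx d)) (β : ℝ) (u v : Vx d) : ℝ :=
  av S (etg S) β (fun T => spin T u * spin T v)

/-- Magnetisation with plus boundary conditions. -/
noncomputable def mp {d : ℕ} (S : Finset (Vx d)) (β : ℝ) (u : Vx d) : ℝ :=
  av S (etg S) β (fun T => spin T u)

end Pool.Agent.TC
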