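import Pool.Agent.TC.LebDefs

/-! TC, modules l0, l1: characters, Griffiths' first inequality, Ginibre's inequality. -/

set_option autoImplicit false

namespace Pool.Agent.TC

open Finset

/-- Module l0: characters. -/
theorem isChar_spin {V : Type*} [DecidableEq V] (v : V) :
    IsChar (fun T : Finset V => spin T v) := by
  refine ⟨fun T => ?_, fun T U => ?_⟩
  · unfold spin
    by_cases h : v ∈ T
    · right; simp [h]
    · left; simp [h]
  · unfold spin
    by_cases h : v ∈ T <;> by_cases h' : v ∈ U <;> simp [h, h', Finset.mem_symmDiff]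

theorem isChar_mul {V : Type*} [DecidableEq V] (A B : Finset V → ℝ) (hA : IsChar A)
    (hB : IsChar B) : IsChar (fun T => A T * B T) := by
  refine ⟨fun T => ?_, fun T U => ?_⟩
  · rcases hA.1 T with h | h <;> rcases hB.1 T with h' | h' <;> simp [h, h']
  · simp only
    rw [hA.2, hB.2]
    ring

theorem isChar_one {V : Type*} [DecidableEq V] : IsChar (fun _ : Finset V => (1 : ℝ)) :=
  ⟨fun _ => Or.inl rfl, fun _ _ => by ring⟩

private theorem l0_prod {V ι : Type*} [DecidableEq V] (χ : ι → Finset V → ℝ) (F : Finset ι)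
    (hχ : ∀ i ∈ F, IsChar (χ i)) : IsChar (fun T => ∏ i ∈ F, χ i T) := by
  classical
  induction F using Finset.induction_on with
  | empty => simpa using isChar_one
  | insert i F hi ih =>
    have h1 := isChar_mul (χ i) (fun T => ∏ i ∈ F, χ i T) (hχ i (mem_insert_self _ _))
      (ih fun j hj => hχ j (mem_insert_of_mem hj))
    have h2 : (fun T => ∏ i ∈ insert i F, χ i T) = fun T => χ i T * ∏ i ∈ F, χ i T := by
      funext T
      rw [prod_insert hi]
    rw [h2]
    exact h1

private theorem l0_bij {V : Type*} [DecidableEq V] (S : Finset V) (T : Finset V) (hT : T ⊆ S)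
    (f : Finset V → ℝ) : ∑ U ∈ S.powerset, f (symmDiff T U) = ∑ U ∈ S.powerset, f U := by
  have hsub : ∀ U ⊆ S, symmDiff T U ⊆ S := by
    intro U hU x hx
    rw [Finset.mem_symmDiff] at hx
    rcases hx with h | h
    · exact hT h.1
    · exact hU h.1
  refine Finset.sum_bij' (fun U _ => symmDiff T U) (fun U _ => symmDiff T U) ?_ ?_ ?_ ?_ ?_
  · intro U hU
    rw [mem_powerset] at hU ⊢
    exact hsub U hU
  · intro U hU
    rw [mem_powerset] at hU ⊢
    exact hsub U hU
  · intro U _
    simp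
  · intro U _
    simp
  · intro U _
    rfl

private theorem l0_sum {V : Type*} [DecidableEq V] (S : Finset V) (A : Finset V → ℝ)
    (hA : IsChar A) : 0 ≤ ∑ T ∈ S.powerset, A T := by
  by_cases h : ∀ T ∈ S.powerset, A T = 1
  · exact sum_nonneg fun T hT => by rw [h T hT]; norm_num
  · push Not at h
    obtain ⟨U, hU, hne⟩ := h
    have hU1 : A U = -1 := (hA.1 U).resolve_left hne
    have h1 := l0_bij S U (mem_powerset.mp hU) A
    simp_rw [hA.2, hU1] at h1
    rw [← mul_sum] at h1
    linarith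

/-- Module l0 : Griffiths' first inequality. -/
theorem griffiths1 {V ι : Type*} [DecidableEq V] (S : Finset V) (E : Finset ι)
    (χ : ι → Finset V → ℝ) (hχ : ∀ i ∈ E, IsChar (χ i)) (J : ι → ℝ) (hJ : ∀ i ∈ E, 0 ≤ J i)
    (A : Finset V → ℝ) (hA : IsChar A) : 0 ≤ GZ S E χ J A := by
  classical
  unfold GZ
  have h1 : ∀ T, Real.exp (∑ i ∈ E, J i * χ i T) =
      ∑ F ∈ E.powerset, (∏ i ∈ F, Real.cosh (J i)) * (∏ i ∈ E \ F, Real.sinh (J i)) *
        ∏ i ∈ E \ F, χ i T := by
    intro T
    rw [Real.exp_sum]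
    have h2 : ∀ i ∈ E, Real.exp (J i * χ i T) = Real.cosh (J i) + Real.sinh (J i) * χ i T := by
      intro i hi
      rcases (hχ i hi).1 T with h | h
      · rw [h, mul_one, mul_one, Real.cosh_add_sinh]
      · rw [h, mul_neg, mul_one, mul_neg, mul_one, ← sub_eq_add_neg, Real.cosh_sub_sinh]
    rw [prod_congr rfl h2, Finset.prod_add]
    refine sum_congr rfl fun F _ => ?_
    rw [prod_mul_distrib]
    ring
  simp_rw [h1, mul_sum]
  rw [sum_comm]
  refine sum_nonneg fun F hF => ?_
  have h3 : ∀ T, A T * ((∏ i ∈ F, Real.cosh (J i)) * (∏ i ∈ E \ F, Real.sinh (J i)) *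
        ∏ i ∈ E \ F, χ i T) = ((∏ i ∈ F, Real.cosh (J i)) * (∏ i ∈ E \ F, Real.sinh (J i))) *
        (A T * ∏ i ∈ E \ F, χ i T) := fun T => by ring
  simp_rw [h3]
  rw [← mul_sum]
  refine mul_nonneg (mul_nonneg (prod_nonneg fun i _ => (Real.cosh_pos _).le)
    (prod_nonneg fun i hi => Real.sinh_nonneg_iff.mpr (hJ i (mem_sdiff.mp hi).1))) ?_
  exact l0_sum S _ (isChar_mul A _ hA (l0_prod χ (E \ F) fun i hi => hχ i (mem_sdiff.mp hi).1))

end Pool.Agent.TC
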