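import Pool.Agent.TC.L0

/-! TC, module l1: Ginibre's inequality. -/

set_option autoImplicit false

namespace Pool.Agent.TC

open Finset

private theorem l1_bij {V : Type*} [DecidableEq V] (S : Finset V) (T : Finset V) (hT : T ⊆ S)
    (f : Finset V → ℝ) : ∑ U ∈ S.powerset, f (symmDiff T U) = ∑ U ∈ S.powerset, f U := by
  have hsub : ∀ U ⊆ S, symmDiff T U ⊆ S := by
    intro U hU x hx
    rw [Finset.mem_symmDiff] at hx
    rcases hx with h | h
    · exact hT h.1
    · exact hU h.1
  refine Finset.sum_bij' (fun U _ => symmDiff T U) (fun U _ => symmDiff T U) ?_ ?_ ?_ ?_ ?_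
  · intro U hU
    rw [mem_powerset] at hU ⊢
    exact hsub U hU
  · intro U hU
    rw [mem_powerset] at hU ⊢
    exact hsub U hU
  · intro U _
    simp
  · intro U _
    simp
  · intro U _
    rfl

private theorem l1_inner {V ι : Type*} [DecidableEq V] (S : Finset V) (E : Finset ι)
    (χ : ι → Finset V → ℝ) (hχ : ∀ i ∈ E, IsChar (χ i)) (K : ι → ℝ)
    (hK : ∀ i ∈ E, 0 ≤ K i ∨ ∀ T, T ⊆ S → χ i T = 1) (A : Finset V → ℝ) (hA : IsChar A) :
    0 ≤ ∑ T ∈ S.powerset, A T * Real.exp (∑ i ∈ E, K i * χ i T) := by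
  classical
  have h1 : ∀ T ∈ S.powerset, A T * Real.exp (∑ i ∈ E, K i * χ i T) =
      Real.exp (∑ i ∈ E.filter (fun i => ¬ 0 ≤ K i), K i) *
        (A T * Real.exp (∑ i ∈ E.filter (fun i => 0 ≤ K i), K i * χ i T)) := by
    intro T hT
    rw [← sum_filter_add_sum_filter_not E (fun i => 0 ≤ K i) (fun i => K i * χ i T), Real.exp_add]
    have h2 : ∑ i ∈ E.filter (fun i => ¬ 0 ≤ K i), K i * χ i T =
        ∑ i ∈ E.filter (fun i => ¬ 0 ≤ K i), K i := by
      refine sum_congr rfl fun i hi => ?_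
      rw [mem_filter] at hi
      rw [(hK i hi.1).resolve_left hi.2 T (mem_powerset.mp hT), mul_one]
    rw [h2]
    ring
  rw [sum_congr rfl h1, ← mul_sum]
  refine mul_nonneg (Real.exp_pos _).le ?_
  exact griffiths1 S (E.filter fun i => 0 ≤ K i) χ (fun i hi => hχ i (mem_filter.mp hi).1) K
    (fun i hi => (mem_filter.mp hi).2) A hA

/-- Ginibre's inequality for two systems, the first with larger couplings (or with the factor `χ i`
frozen to `1`) and fewer spins, `s = 1` or `s = -1`: the expectation of `(A - A') (B + s B')` is nonnegative. -/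
theorem ginibre {V ι : Type*} [DecidableEq V] (S S' : Finset V) (hS : S ⊆ S') (E : Finset ι)
    (χ : ι → Finset V → ℝ) (hχ : ∀ i ∈ E, IsChar (χ i)) (J J' : ι → ℝ) (hJ' : ∀ i ∈ E, 0 ≤ J' i)
    (hJ : ∀ i ∈ E, J' i ≤ J i ∨ ∀ T, T ⊆ S → χ i T = 1) (A B : Finset V → ℝ) (hA : IsChar A)
    (hB : IsChar B) (s : ℝ) (hs : s = 1 ∨ s = -1) :
    0 ≤ GZ S E χ J (fun T => A T * B T) * GZ S' E χ J' (fun _ => 1)
      + s * (GZ S E χ J A * GZ S' E χ J' B) - GZ S E χ J B * GZ S' E χ J' A
      - s * (GZ S E χ J (fun _ => 1) * GZ S' E χ J' (fun T => A T * B T)) := by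
  classical
  set w : Finset V → ℝ := fun T => Real.exp (∑ i ∈ E, J i * χ i T) with hw
  set w' : Finset V → ℝ := fun T => Real.exp (∑ i ∈ E, J' i * χ i T) with hw'
  have hmul : ∀ f g : Finset V → ℝ, GZ S E χ J f * GZ S' E χ J' g =
      ∑ T ∈ S.powerset, ∑ U ∈ S'.powerset, f T * w T * (g U * w' U) := by
    intro f g
    unfold GZ
    rw [sum_mul_sum]
  have h1 : GZ S E χ J (fun T => A T * B T) * GZ S' E χ J' (fun _ => 1)
      + s * (GZ S E χ J A * GZ S' E χ J' B) - GZ S E χ J B * GZ S' E χ J' A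
      - s * (GZ S E χ J (fun _ => 1) * GZ S' E χ J' (fun T => A T * B T)) =
      ∑ T ∈ S.powerset, ∑ U ∈ S'.powerset, (A T - A U) * (B T + s * B U) * (w T * w' U) := by
    rw [hmul, hmul, hmul, hmul, mul_sum, mul_sum, ← sum_add_distrib, ← sum_sub_distrib,
      ← sum_sub_distrib]
    refine sum_congr rfl fun T _ => ?_
    rw [mul_sum, mul_sum, ← sum_add_distrib, ← sum_sub_distrib, ← sum_sub_distrib]
    refine sum_congr rfl fun U _ => ?_
    ring
  rw [h1]
  have h2 : ∀ T ∈ S.powerset, ∑ U ∈ S'.powerset, (A T - A U) * (B T + s * B U) * (w T * w' U) =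
      ∑ U ∈ S'.powerset, (1 - A U) * (1 + s * B U) *
        (A T * B T * Real.exp (∑ i ∈ E, (J i + J' i * χ i U) * χ i T)) := by
    intro T hT
    have hTS' : T ⊆ S' := (mem_powerset.mp hT).trans hS
    rw [← l1_bij S' T hTS' (fun U => (A T - A U) * (B T + s * B U) * (w T * w' U))]
    refine sum_congr rfl fun U _ => ?_
    have h3 : w T * w' (symmDiff T U) = Real.exp (∑ i ∈ E, (J i + J' i * χ i U) * χ i T) := by
      rw [hw, hw']
      simp only
      rw [← Real.exp_add, ← sum_add_distrib]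
      congr 1
      refine sum_congr rfl fun i hi => ?_
      rw [(hχ i hi).2]
      ring
    rw [h3, hA.2, hB.2]
    ring
  rw [sum_congr rfl h2, sum_comm]
  refine sum_nonneg fun U _ => ?_
  rw [← mul_sum]
  refine mul_nonneg (mul_nonneg ?_ ?_) ?_
  · rcases hA.1 U with h | h <;> rw [h] <;> norm_num
  · rcases hB.1 U with h | h <;> rcases hs with h' | h' <;> rw [h, h'] <;> norm_num
  · refine l1_inner S E χ hχ _ ?_ _ (isChar_mul A B hA hB)
    intro i hi
    rcases hJ i hi with h | h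
    · left
      rcases (hχ i hi).1 U with h' | h'
      · rw [h']
        have := hJ' i hi
        linarith
      · rw [h']
        linarith
    · right
      exact h

end Pool.Agent.TC
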