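import Pool.Agent.TC.Defs

/-! Spin representation of the partition functions of currents. -/

set_option autoImplicit false

set_option linter.unusedVariables false

namespace Pool.Agent.TC

open Finset Filter

private theorem i1_summable {ι : Type*} [Fintype ι] (g : ι → ℕ → ℝ) (h0 : ∀ i k, 0 ≤ g i k)
    (hs : ∀ i, Summable (g i)) : Summable (fun n : ι → ℕ => ∏ i, g i (n i)) := by
  classical
  refine summable_of_sum_le (c := ∏ i, ∑' k, g i k)
    (fun n => Finset.prod_nonneg fun i _ => h0 i _) (fun s => ?_)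
  obtain ⟨N, hN⟩ : ∃ N, ∀ n ∈ s, ∀ i, n i < N :=
    ⟨(s.sup fun n => univ.sup n) + 1, fun n hn i => Nat.lt_succ_of_le
      (le_trans (Finset.le_sup (f := n) (mem_univ i))
        (Finset.le_sup (f := fun n : ι → ℕ => univ.sup n) hn))⟩
  calc ∑ n ∈ s, ∏ i, g i (n i) ≤
        ∑ n ∈ Fintype.piFinset (fun _ : ι => range N), ∏ i, g i (n i) := by
          refine Finset.sum_le_sum_of_subset_of_nonneg (fun n hn => ?_)
            (fun n _ _ => Finset.prod_nonneg fun i _ => h0 i _)
          rw [Fintype.mem_piFinset]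
          exact fun i => mem_range.2 (hN n hn i)
    _ = ∏ i, ∑ k ∈ range N, g i k := (Finset.prod_univ_sum _ _).symm
    _ ≤ ∏ i, ∑' k, g i k := Finset.prod_le_prod
        (fun i _ => Finset.sum_nonneg fun k _ => h0 i k)
        (fun i _ => (hs i).sum_le_tsum _ fun k _ => h0 i k)

private theorem i1_hasSum {ι : Type*} [Fintype ι] (g : ι → ℕ → ℝ)
    (hs : ∀ i, Summable (fun k => |g i k|)) :
    HasSum (fun n : ι → ℕ => ∏ i, g i (n i)) (∏ i, ∑' k, g i k) := by
  classical
  have hsum : Summable (fun n : ι → ℕ => ∏ i, g i (n i)) := by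
    have h := i1_summable (fun i k => |g i k|) (fun i k => abs_nonneg _) hs
    refine Summable.of_abs ?_
    refine h.congr fun n => ?_
    rw [Finset.abs_prod]
  have hcof : Tendsto (fun N : ℕ => Fintype.piFinset (fun _ : ι => range N)) atTop atTop := by
    refine tendsto_atTop_finset_of_monotone (fun a b hab n hn => ?_) (fun n => ?_)
    · rw [Fintype.mem_piFinset] at hn ⊢
      exact fun i => range_mono hab (hn i)
    · refine ⟨univ.sup n + 1, ?_⟩
      rw [Fintype.mem_piFinset]
      exact fun i => mem_range.2 (Nat.lt_succ_of_le (Finset.le_sup (f := n) (mem_univ i)))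
  have hlim1 : Tendsto (fun N : ℕ => ∑ n ∈ Fintype.piFinset (fun _ : ι => range N),
      ∏ i, g i (n i)) atTop (nhds (∑' n : ι → ℕ, ∏ i, g i (n i))) := hsum.hasSum.comp hcof
  have hlim2 : Tendsto (fun N : ℕ => ∑ n ∈ Fintype.piFinset (fun _ : ι => range N),
      ∏ i, g i (n i)) atTop (nhds (∏ i, ∑' k, g i k)) := by
    have h1 : ∀ N : ℕ, ∑ n ∈ Fintype.piFinset (fun _ : ι => range N), ∏ i, g i (n i) =
        ∏ i, ∑ k ∈ range N, g i k := fun N => (Finset.prod_univ_sum _ _).symm
    simp only [h1]
    exact tendsto_finsetProd _ fun i _ => ((hs i).of_abs).hasSum.tendsto_sum_nat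
  rw [← tendsto_nhds_unique hlim1 hlim2]
  exact hsum.hasSum

private theorem i1_abs_exp (t : ℝ) : Summable (fun k : ℕ => |t ^ k / (k.factorial : ℝ)|) := by
  refine (Real.summable_pow_div_factorial |t|).congr fun k => ?_
  rw [abs_div, abs_pow, Nat.abs_cast]

private theorem i1_tsum_exp (t : ℝ) : ∑' k : ℕ, t ^ k / (k.factorial : ℝ) = Real.exp t := by
  rw [Real.exp_eq_exp_ℝ, NormedSpace.exp_eq_tsum_div]

private theorem i1_spin {V : Type*} [DecidableEq V] (T : Finset V) (v : V) :
    spin T v = ∏ w ∈ T, (-1 : ℝ) ^ (if v = w then 1 else 0) := by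
  unfold spin
  have h : ∀ w ∈ T, (-1 : ℝ) ^ (if v = w then 1 else 0) = if v = w then (-1 : ℝ) else 1 := by
    intro w _
    split_ifs <;> simp
  rw [Finset.prod_congr rfl h, Finset.prod_ite_eq]

/-- Exponent at `w`. -/
private def i1_N {V E : Type*} [DecidableEq V] [Fintype E] (a b : E → V) (n : E → ℕ)
    (u x w : V) : ℕ :=
  (if u = w then 1 else 0) + (if x = w then 1 else 0) +
    ∑ e, ((if a e = w then 1 else 0) + (if b e = w then 1 else 0)) * n e

private theorem i1_prod {V E : Type*} [DecidableEq V] [Fintype E] (a b : E → V) (n : E → ℕ)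
    (u x : V) (T : Finset V) :
    spin T u * spin T x * ∏ e, (spin T (a e) * spin T (b e)) ^ n e =
      ∏ w ∈ T, (-1 : ℝ) ^ i1_N a b n u x w := by
  have h1 : ∀ w, (-1 : ℝ) ^ i1_N a b n u x w =
      (-1 : ℝ) ^ (if u = w then 1 else 0) * (-1 : ℝ) ^ (if x = w then 1 else 0) *
      ∏ e, ((-1 : ℝ) ^ (if a e = w then 1 else 0) * (-1 : ℝ) ^ (if b e = w then 1 else 0)) ^
        n e := by
    intro w
    unfold i1_N
    rw [pow_add, pow_add, ← Finset.prod_pow_eq_pow_sum]
    congr 1
    refine Finset.prod_congr rfl fun e _ => ?_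
    rw [pow_mul, pow_add]
  rw [Finset.prod_congr rfl fun w _ => h1 w, Finset.prod_mul_distrib, Finset.prod_mul_distrib,
    ← i1_spin, ← i1_spin, Finset.prod_comm]
  congr 1
  refine Finset.prod_congr rfl fun e _ => ?_
  rw [Finset.prod_pow, Finset.prod_mul_distrib, ← i1_spin, ← i1_spin]

private theorem i1_cast {V E : Type*} [DecidableEq V] [Fintype E] (a b : E → V) (n : E → ℕ)
    (u x w : V) :
    ((i1_N a b n u x w : ℕ) : ZMod 2) = inc u x w + ∑ e, (n e : ZMod 2) * inc (a e) (b e) w := by
  unfold i1_N inc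
  push_cast
  congr 1
  refine Finset.sum_congr rfl fun e _ => ?_
  rw [mul_comm]

open Classical in
private theorem i1_char {V E : Type*} [DecidableEq V] [Fintype E] (S : Finset V)
    (a b : E → V) (hab : ∀ e, a e ∈ S ∧ b e ∈ S) (u x : V) (hu : u ∈ S) (hx : x ∈ S)
    (n : E → ℕ) :
    ∑ T ∈ S.powerset, spin T u * spin T x * ∏ e, (spin T (a e) * spin T (b e)) ^ n e =
      if Src a b n (inc u x) then (2 : ℝ) ^ S.card else 0 := by
  have h1 : ∑ T ∈ S.powerset, spin T u * spin T x * ∏ e, (spin T (a e) * spin T (b e)) ^ n e =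
      ∏ w ∈ S, ((-1 : ℝ) ^ i1_N a b n u x w + 1) := by
    rw [Finset.prod_add]
    refine Finset.sum_congr rfl fun T _ => ?_
    rw [i1_prod, Finset.prod_const_one, mul_one]
  rw [h1]
  split_ifs with hs
  · have h2 : ∀ w ∈ S, ((-1 : ℝ) ^ i1_N a b n u x w + 1) = 2 := by
      intro w _
      have h3 : Even (i1_N a b n u x w) := by
        rw [← ZMod.natCast_eq_zero_iff_even, i1_cast, hs w]
        exact CharTwo.add_self_eq_zero _
      rw [h3.neg_one_pow]
      norm_num
    rw [Finset.prod_congr rfl h2, Finset.prod_const]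
  · obtain ⟨v, hv⟩ := not_forall.1 hs
    have hvS : v ∈ S := by
      by_contra hvS
      apply hv
      have hne : ∀ p, p ∈ S → p ≠ v := fun p hp h => hvS (h ▸ hp)
      have h2 : ∀ e ∈ (univ : Finset E), (n e : ZMod 2) * inc (a e) (b e) v = 0 := by
        intro e _
        unfold inc
        rw [if_neg (hne _ (hab e).1), if_neg (hne _ (hab e).2), add_zero, mul_zero]
      rw [Finset.sum_eq_zero h2]
      unfold inc
      rw [if_neg (hne _ hu), if_neg (hne _ hx), add_zero]
    refine Finset.prod_eq_zero hvS ?_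
    have h3 : Odd (i1_N a b n u x v) := by
      rw [← Nat.not_even_iff_odd, ← ZMod.natCast_eq_zero_iff_even, i1_cast]
      intro h
      apply hv
      have h4 : ∑ e, (n e : ZMod 2) * inc (a e) (b e) v = - inc u x v :=
        eq_neg_of_add_eq_zero_right h
      rw [h4]
      exact CharTwo.neg_eq _
    rw [h3.neg_one_pow]
    norm_num

private theorem i1_W {E : Type*} [Fintype E] (J s : E → ℝ) (n : E → ℕ) :
    ∏ e, (J e * s e) ^ n e / ((n e).factorial : ℝ) = W J n * ∏ e, s e ^ n e := by
  unfold W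
  rw [← Finset.prod_mul_distrib]
  refine Finset.prod_congr rfl fun e _ => ?_
  rw [mul_pow]
  ring

/-- Module i1: spin representation of the partition functions (`u = x` gives the sourceless one). -/
theorem spin_rep {V E : Type*} [DecidableEq V] [Fintype E] [DecidableEq E] (S : Finset V)
    (a b : E → V) (hab : ∀ e, a e ∈ S ∧ b e ∈ S) (u x : V) (hu : u ∈ S) (hx : x ∈ S)
    (J : E → ℝ) :
    Summable (fun n : E → ℕ => |W J n|) ∧
    (2 : ℝ) ^ S.card * ZD a b J (inc u x) =
      ∑ T ∈ S.powerset, spin T u * spin T x *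
        Real.exp (∑ e, J e * (spin T (a e) * spin T (b e))) := by
  classical
  constructor
  · have h := i1_summable (fun (e : E) k => |J e ^ k / (k.factorial : ℝ)|)
      (fun e k => abs_nonneg _) (fun e => i1_abs_exp (J e))
    refine h.congr fun n => ?_
    unfold W
    rw [Finset.abs_prod]
  · have h1 : ∀ T : Finset V, HasSum (fun n : E → ℕ => spin T u * spin T x *
        (W J n * ∏ e, (spin T (a e) * spin T (b e)) ^ n e))
        (spin T u * spin T x * Real.exp (∑ e, J e * (spin T (a e) * spin T (b e)))) := by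
      intro T
      refine HasSum.mul_left _ ?_
      have h2 := i1_hasSum (fun (e : E) k =>
        (J e * (spin T (a e) * spin T (b e))) ^ k / (k.factorial : ℝ))
        (fun e => i1_abs_exp _)
      have h3 : (fun n : E → ℕ => W J n * ∏ e, (spin T (a e) * spin T (b e)) ^ n e) =
          (fun n : E → ℕ => ∏ e, (J e * (spin T (a e) * spin T (b e))) ^ n e /
            ((n e).factorial : ℝ)) := by
        funext n
        rw [i1_W J (fun e => spin T (a e) * spin T (b e)) n]
      rw [h3, Real.exp_sum]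
      have h4 : ∏ e, Real.exp (J e * (spin T (a e) * spin T (b e))) =
          ∏ e, ∑' k : ℕ, (J e * (spin T (a e) * spin T (b e))) ^ k / (k.factorial : ℝ) :=
        Finset.prod_congr rfl fun e _ => (i1_tsum_exp _).symm
      rw [h4]
      exact h2
    have h2 := hasSum_sum (s := S.powerset) (fun T _ => h1 T)
    rw [← h2.tsum_eq]
    unfold ZD
    rw [← tsum_mul_left]
    refine tsum_congr fun n => ?_
    have h3 : ∑ T ∈ S.powerset, spin T u * spin T x *
        (W J n * ∏ e, (spin T (a e) * spin T (b e)) ^ n e) =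
        W J n * ∑ T ∈ S.powerset, spin T u * spin T x *
          ∏ e, (spin T (a e) * spin T (b e)) ^ n e := by
      rw [Finset.mul_sum]
      refine Finset.sum_congr rfl fun T _ => ?_
      ring
    rw [h3, i1_char S a b hab u x hu hx n]
    split_ifs
    · ring
    · ring

end Pool.Agent.TC
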