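import Pool.Agent.TC.LebDefs

set_option autoImplicit false

namespace Pool.Agent.TC

open Finset Filter Pool.Agent.SRC

private def l6_f {d : ℕ} (a : Vx d) (z : Vx d) : Vx d := z + a

private def l6_g {d : ℕ} (a : Vx d) (e : Ed d) : Ed d := (e.1 + a, e.2)

private theorem l6_f_inj {d : ℕ} (a : Vx d) : Function.Injective (l6_f a) := fun x y h => by
  unfold l6_f at h
  exact add_right_cancel h

private theorem l6_g_inj {d : ℕ} (a : Vx d) : Function.Injective (l6_g a) := fun x y h => by
  unfold l6_g at h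
  have h1 := congrArg Prod.fst h
  have h2 := congrArg Prod.snd h
  exact Prod.ext (add_right_cancel h1) h2

private theorem l6_mem {d : ℕ} (a : Vx d) (T : Finset (Vx d)) (v : Vx d) :
    v + a ∈ T.image (l6_f a) ↔ v ∈ T := by
  constructor
  · intro h
    obtain ⟨w, hw, hwv⟩ := Finset.mem_image.mp h
    have : w = v := l6_f_inj a hwv
    rwa [← this]
  · intro h
    exact Finset.mem_image_of_mem _ h

private theorem l6_spin {d : ℕ} (a : Vx d) (T : Finset (Vx d)) (v : Vx d) :
    spin (T.image (l6_f a)) (v + a) = spin T v := by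
  unfold spin
  by_cases h : v ∈ T
  · rw [if_pos ((l6_mem a T v).mpr h), if_pos h]
  · rw [if_neg (fun h' => h ((l6_mem a T v).mp h')), if_neg h]

private theorem l6_tip {d : ℕ} (a : Vx d) (e : Ed d) : tip (l6_g a e) = tip e + a := by
  unfold tip l6_g
  simp only
  abel

private theorem l6_bond {d : ℕ} (a : Vx d) (T : Finset (Vx d)) (e : Ed d) :
    bond (l6_g a e) (T.image (l6_f a)) = bond e T := by
  unfold bond
  rw [l6_tip, l6_spin]
  have : (l6_g a e).1 = e.1 + a := rfl
  rw [this, l6_spin]

private theorem l6_GI {d : ℕ} (a : Vx d) (S : Finset (Vx d)) (E : Finset (Ed d)) (β : ℝ)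
    (F : Finset (Vx d) → ℝ) :
    GI (S.image (l6_f a)) (E.image (l6_g a)) β F = GI S E β (fun T => F (T.image (l6_f a))) := by
  unfold GI
  symm
  apply Finset.sum_bij (fun T _ => T.image (l6_f a))
  · intro T hT
    rw [Finset.mem_powerset] at hT ⊢
    exact Finset.image_subset_image hT
  · intro T _ T' _ h
    exact Finset.image_injective (l6_f_inj a) h
  · intro T hT
    rw [Finset.mem_powerset] at hT
    obtain ⟨U, hU, hUT⟩ := Finset.subset_image_iff.mp hT
    exact ⟨U, Finset.mem_powerset.mpr (by exact_mod_cast hU), hUT⟩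
  · intro T _
    rw [Finset.sum_image (fun x _ y _ h => l6_g_inj a h)]
    simp only [l6_bond]

private theorem l6_mem' {d : ℕ} (a : Vx d) (T : Finset (Vx d)) (v : Vx d) :
    v ∈ T.image (l6_f a) ↔ v - a ∈ T := by
  have := l6_mem a T (v - a)
  rw [sub_add_cancel] at this
  exact this

private theorem l6_memg {d : ℕ} (a : Vx d) (T : Finset (Ed d)) (e : Ed d) :
    e ∈ T.image (l6_g a) ↔ (e.1 - a, e.2) ∈ T := by
  constructor
  · intro h
    obtain ⟨w, hw, hwv⟩ := Finset.mem_image.mp h
    have : w = (e.1 - a, e.2) := by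
      rw [← hwv]
      unfold l6_g
      simp
    rwa [← this]
  · intro h
    refine Finset.mem_image.mpr ⟨_, h, ?_⟩
    unfold l6_g
    simp

private theorem l6_edg {d : ℕ} (a : Vx d) (S : Finset (Vx d)) :
    edg (S.image (l6_f a)) = (edg S).image (l6_g a) := by
  ext e
  rw [mem_edg, l6_memg, mem_edg, l6_mem', l6_mem']
  have : tip ((e.1 - a, e.2) : Ed d) = tip e - a := by
    unfold tip
    simp only
    abel
  rw [this]

private theorem l6_memetg {d : ℕ} (S : Finset (Vx d)) (e : Ed d) :
    e ∈ etg S ↔ e.1 ∈ S ∨ tip e ∈ S := by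
  unfold etg
  rw [Finset.mem_union, Finset.mem_product, Finset.mem_image]
  constructor
  · rintro (h | ⟨p, hp, hpe⟩)
    · exact Or.inl h.1
    · right
      rw [← hpe]
      unfold tip
      simp only [sub_add_cancel]
      exact (Finset.mem_product.mp hp).1
  · rintro (h | h)
    · exact Or.inl ⟨h, Finset.mem_univ _⟩
    · right
      refine ⟨(tip e, e.2), Finset.mem_product.mpr ⟨h, Finset.mem_univ _⟩, ?_⟩
      unfold tip
      simp

private theorem l6_etg {d : ℕ} (a : Vx d) (S : Finset (Vx d)) :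
    etg (S.image (l6_f a)) = (etg S).image (l6_g a) := by
  ext e
  rw [l6_memetg, l6_memg, l6_memetg, l6_mem', l6_mem']
  have : tip ((e.1 - a, e.2) : Ed d) = tip e - a := by
    unfold tip
    simp only
    abel
  rw [this]

/-- Module l6: translation invariance. -/
theorem cf_shift {d : ℕ} (S : Finset (Vx d)) (β : ℝ) (u v a : Vx d) :
    cf (S.image (fun z => z + a)) β (u + a) (v + a) = cf S β u v ∧
    cp (S.image (fun z => z + a)) β (u + a) (v + a) = cp S β u v ∧
    mp (S.image (fun z => z + a)) β (u + a) = mp S β u := by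
  have hf : (fun z : Vx d => z + a) = l6_f a := rfl
  rw [hf]
  refine ⟨?_, ?_, ?_⟩
  · unfold cf av
    rw [l6_edg, l6_GI, l6_GI]
    simp only [l6_spin]
  · unfold cp av
    rw [l6_etg, l6_GI, l6_GI]
    simp only [l6_spin]
  · unfold mp av
    rw [l6_etg, l6_GI, l6_GI]
    simp only [l6_spin]

end Pool.Agent.TC
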