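import Pool.Agent.SRC.Inf

/-! Passage to the limit: a lower bound for all two-point connection probabilities in the boxes gives an
infinite cluster for the limit measure. -/

set_option autoImplicit false

namespace Pool.Agent.TC

open Finset Filter MeasureTheory Pool.Agent.SRC

/-- Vertices strictly inside the box of radius `M`. -/
private def lim_in {d : ℕ} (M : ℕ) (v : Vx d) : Prop := ∀ i, |v i| < (M : ℤ)

private theorem lim_step {d : ℕ} (M : ℕ) (ω : Set (Ed d)) (w v : Vx d) (hw : lim_in M w)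
    (h : adj ω w v) : adj {e | e ∈ boxE d M ∧ e ∈ ω} w v := by
  have hM : ∀ (p : Vx d) (i j : Fin d), |p j| < (M : ℤ) →
      (-(M : ℤ) ≤ (p + uv i) j ∧ (p + uv i) j ≤ M) ∧ (-(M : ℤ) ≤ p j ∧ p j ≤ M) ∧
      (-(M : ℤ) ≤ (p - uv i) j ∧ (p - uv i) j ≤ M) := by
    intro p i j hj
    have h1 := abs_lt.1 hj
    have h2 : (0 : ℤ) ≤ (uv i : Vx d) j ∧ (uv i : Vx d) j ≤ 1 := by
      unfold uv
      rw [Pi.single_apply]
      split_ifs
      · exact ⟨zero_le_one, le_rfl⟩
      · exact ⟨le_rfl, zero_le_one⟩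
    rw [Pi.add_apply, Pi.sub_apply]
    obtain ⟨h3, h4⟩ := h1
    obtain ⟨h5, h6⟩ := h2
    refine ⟨⟨by linarith, by linarith⟩, ⟨by linarith, by linarith⟩, by linarith, by linarith⟩
  obtain ⟨i, hi⟩ := h
  refine ⟨i, ?_⟩
  rcases hi with ⟨h1, h2⟩ | ⟨h1, h2⟩
  · refine Or.inl ⟨⟨?_, h1⟩, h2⟩
    unfold boxE bx
    rw [mem_edg, Finset.mem_Icc, Finset.mem_Icc]
    unfold tip
    exact ⟨⟨fun j => (hM w i j (hw j)).2.1.1, fun j => (hM w i j (hw j)).2.1.2⟩,
      fun j => (hM w i j (hw j)).1.1, fun j => (hM w i j (hw j)).1.2⟩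
  · refine Or.inr ⟨⟨?_, h1⟩, h2⟩
    have hv : v = w - uv i := by rw [h2]; abel
    unfold boxE bx
    rw [mem_edg, Finset.mem_Icc, Finset.mem_Icc]
    unfold tip
    refine ⟨⟨fun j => ?_, fun j => ?_⟩, fun j => ?_, fun j => ?_⟩
    · show -(M : ℤ) ≤ v j
      rw [hv]; exact (hM w i j (hw j)).2.2.1
    · show v j ≤ (M : ℤ)
      rw [hv]; exact (hM w i j (hw j)).2.2.2
    · show -(M : ℤ) ≤ (v + uv i) j
      rw [← h2]; exact (hM w i j (hw j)).2.1.1
    · show (v + uv i) j ≤ (M : ℤ)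
      rw [← h2]; exact (hM w i j (hw j)).2.1.2

/-- Leaving the box of radius `M` only uses the edges of the box. -/
theorem far_box {d : ℕ} (M : ℕ) (hM : 1 ≤ M) (ω : Set (Ed d)) (h : Far (M : ℤ) ω 0) :
    Far (M : ℤ) {e | e ∈ boxE d M ∧ e ∈ ω} 0 := by
  obtain ⟨v, hv, i, hi⟩ := h
  have key : ∀ w, conn ω 0 w → Far (M : ℤ) {e | e ∈ boxE d M ∧ e ∈ ω} 0 ∨
      (lim_in M w ∧ conn {e | e ∈ boxE d M ∧ e ∈ ω} 0 w) := by
    intro w hw
    unfold conn at hw
    induction hw with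
    | refl =>
      refine Or.inr ⟨fun j => ?_, conn_refl _ _⟩
      rw [Pi.zero_apply, abs_zero]
      exact_mod_cast hM
    | @tail p q _ h2 ih =>
      rcases ih with ih | ⟨ih1, ih2⟩
      · exact Or.inl ih
      · have h3 : conn {e | e ∈ boxE d M ∧ e ∈ ω} 0 q :=
          Relation.ReflTransGen.tail ih2 (lim_step M ω p q ih1 h2)
        by_cases h4 : lim_in M q
        · exact Or.inr ⟨h4, h3⟩
        · unfold lim_in at h4
          rw [not_forall] at h4
          obtain ⟨j, hj⟩ := h4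
          refine Or.inl ⟨q, h3, j, ?_⟩
          rw [Pi.zero_apply, sub_zero]
          exact not_lt.1 hj
  rcases key v hv with h1 | ⟨h1, -⟩
  · exact h1
  · exfalso
    have h2 := h1 i
    rw [Pi.zero_apply, sub_zero] at hi
    linarith

theorem perc_lim {d : ℕ} (hd : 1 ≤ d) (β : ℝ) (hβ : 0 < β) (c : ℝ)
    (h : ∀ x : Vx d, ∀ᶠ L in atTop, c ≤ curP β (boxE d L) {n | conn {e | 0 < n e} 0 x})
    (μ : Measure (Ed d → ℕ)) (hμ : IsProbabilityMeasure μ)
    (hlim : ∀ (F : Finset (Ed d)) (k : Ed d → ℕ),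
      Tendsto (fun L => curP β (boxE d L) (cyl F k)) atTop (nhds (μ.real (cyl F k)))) :
    c ≤ μ.real {n | {v | conn {e | 0 < n e} 0 v}.Infinite} := by
  set A : ℕ → Set (Ed d → ℕ) := fun K => {n | Far ((K + 1 : ℕ) : ℤ) {e | 0 < n e} 0} with hA
  have hAm : ∀ K, MeasurableSet (A K) := fun K => meas_far _ _
  have hAB : ∀ K, A K = {n | Far ((K + 1 : ℕ) : ℤ) {e | e ∈ boxE d (K + 1) ∧ 0 < n e} 0} := by
    intro K
    ext n
    constructor
    · intro hn
      exact far_box (K + 1) (by omega) {e | 0 < n e} hn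
    · rintro ⟨v, h1, i, h2⟩
      exact ⟨v, conn_mono (fun e he => he.2) h1, i, h2⟩
  have hK : ∀ K, c ≤ μ.real (A K) := by
    intro K
    have h1 : Tendsto (fun L => curP β (boxE d L) (A K)) atTop (nhds (μ.real (A K))) := by
      refine ev_lim β hβ (boxE d) μ hμ hlim (boxE d (K + 1)) _ fun n n' hn => ?_
      have h2 : {e | e ∈ boxE d (K + 1) ∧ 0 < n e} = {e | e ∈ boxE d (K + 1) ∧ 0 < n' e} := by
        ext e
        constructor
        · rintro ⟨a, b⟩
          exact ⟨a, by rwa [← hn e a]⟩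
        · rintro ⟨a, b⟩
          exact ⟨a, by rwa [hn e a]⟩
      rw [hAB K, Set.mem_setOf_eq, Set.mem_setOf_eq, h2]
    refine ge_of_tendsto h1 ?_
    have i0 : Fin d := ⟨0, by omega⟩
    filter_upwards [h (fun _ => ((K + 1 : ℕ) : ℤ))] with L hL
    refine hL.trans ?_
    haveI := curM_prob β hβ (boxE d L)
    have hm : MeasurableSet {n : Ed d → ℕ | conn {e | 0 < n e} 0 (fun _ => ((K + 1 : ℕ) : ℤ))} := by
      have h3 : {n : Ed d → ℕ | conn {e | 0 < n e} 0 (fun _ => ((K + 1 : ℕ) : ℤ))} =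
          ⋃ F : Finset (Ed d), ⋃ _ : conn (↑F : Set (Ed d)) 0 (fun _ => ((K + 1 : ℕ) : ℤ)),
            ⋂ e ∈ F, {n : Ed d → ℕ | 0 < n e} := by
        ext n
        simp only [Set.mem_iUnion, Set.mem_iInter]
        constructor
        · intro h1
          obtain ⟨F, h3, h4⟩ := (YF_conn _ _ _).1 h1
          exact ⟨F, h4, fun e he => h3 he⟩
        · rintro ⟨F, h4, h3⟩
          exact (YF_conn _ _ _).2 ⟨F, fun e he => h3 e he, h4⟩
      rw [h3]
      refine MeasurableSet.iUnion fun F => MeasurableSet.iUnion fun _ => ?_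
      refine Finset.measurableSet_biInter F fun e _ => ?_
      exact measurable_pi_apply e (MeasurableSet.of_discrete (s := {m : ℕ | 0 < m}))
    rw [← curM_real β hβ (boxE d L) _ hm, ← curM_real β hβ (boxE d L) _ (hAm K)]
    refine measureReal_mono fun n hn => ?_
    refine ⟨_, hn, i0, ?_⟩
    rw [Pi.zero_apply, sub_zero]
    exact le_abs_self _
  -- the intersection
  have hanti : Antitone A := by
    intro K K' hKK n hn
    obtain ⟨v, h1, i, h2⟩ := hn
    refine ⟨v, h1, i, le_trans ?_ h2⟩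
    exact_mod_cast Nat.succ_le_succ hKK
  have hlimA : Tendsto (fun K => μ.real (A K)) atTop (nhds (μ.real (⋂ K, A K))) := by
    have h1 := tendsto_measure_iInter_atTop (μ := μ) (s := A)
      (fun K => (hAm K).nullMeasurableSet) hanti ⟨0, measure_ne_top μ _⟩
    exact (ENNReal.tendsto_toReal (measure_ne_top μ _)).comp h1
  have h1 : c ≤ μ.real (⋂ K, A K) := ge_of_tendsto' hlimA hK
  refine h1.trans (measureReal_mono fun n hn => ?_)
  rw [Set.mem_iInter] at hn
  intro hfin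
  obtain ⟨M, hM⟩ : ∃ M : ℕ, ∀ v ∈ {v | conn {e | 0 < n e} 0 v}, ∀ i, |v i| ≤ (M : ℤ) := by
    classical
    set S := hfin.toFinset with hS
    refine ⟨S.sup fun v => Finset.univ.sup fun i => (v i).natAbs, fun v hv i => ?_⟩
    have h2 : v ∈ S := by
      rw [hS, Set.Finite.mem_toFinset]
      exact hv
    have h3 : (v i).natAbs ≤ S.sup fun v => Finset.univ.sup fun i => (v i).natAbs :=
      le_trans (Finset.le_sup (f := fun i => (v i).natAbs) (Finset.mem_univ i))
        (Finset.le_sup (f := fun v : Vx d => Finset.univ.sup fun i => (v i).natAbs) h2)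
    rw [Int.abs_eq_natAbs]
    exact_mod_cast h3
  obtain ⟨v, h2, i, h3⟩ := hn M
  have h4 := hM v h2 i
  rw [Pi.zero_apply, sub_zero] at h3
  push_cast at h3
  linarith

end Pool.Agent.TC
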