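import Pool.Agent.TC.LebDefs
import Pool.Agent.TC.L1
import Pool.Agent.TC.L0

/-! TC, module l2: free correlations increase with the set and with `β`. -/

set_option autoImplicit false

namespace Pool.Agent.TC

open Finset Filter Pool.Agent.SRC

private theorem l2_pow {V : Type*} [DecidableEq V] (S R : Finset V) (hd : Disjoint S R)
    (g : Finset V → ℝ) :
    ∑ T ∈ (S ∪ R).powerset, g (T ∩ S) = 2 ^ R.card * ∑ T ∈ S.powerset, g T := by
  induction R using Finset.induction_on with
  | empty =>
    simp only [union_empty, card_empty, pow_zero, one_mul]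
    refine sum_congr rfl fun T hT => ?_
    rw [inter_eq_left.mpr (mem_powerset.mp hT)]
  | insert a R ha ih =>
    have h1 : Disjoint S R := hd.mono_right (subset_insert a R)
    have h2 : a ∉ S := fun h => disjoint_left.mp hd h (mem_insert_self a R)
    have h3 : a ∉ S ∪ R := by
      rw [mem_union]
      rintro (h | h)
      · exact h2 h
      · exact ha h
    rw [union_insert, sum_powerset_insert h3, ih h1, card_insert_of_notMem ha, pow_succ]
    have h4 : ∑ T ∈ (S ∪ R).powerset, g (insert a T ∩ S) =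
        ∑ T ∈ (S ∪ R).powerset, g (T ∩ S) := by
      refine sum_congr rfl fun T _ => ?_
      rw [insert_inter_of_notMem h2]
    rw [h4, ih h1]
    ring

private theorem l2_spin {V : Type*} [DecidableEq V] (S T : Finset V) (v : V) (hv : v ∈ S) :
    spin (T ∩ S) v = spin T v := by
  unfold spin
  simp [mem_inter, hv]

private theorem l2_bond {d : ℕ} (S T : Finset (Vx d)) (e : Ed d) (he : e ∈ edg S) :
    bond e (T ∩ S) = bond e T := by
  rw [mem_edg] at he
  unfold bond
  rw [l2_spin S T _ he.1, l2_spin S T _ he.2]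

private theorem l2_edg {d : ℕ} (S S' : Finset (Vx d)) (hS : S ⊆ S') : edg S ⊆ edg S' := by
  intro e he
  rw [mem_edg] at he ⊢
  exact ⟨hS he.1, hS he.2⟩

private theorem l2_big {d : ℕ} (S S' : Finset (Vx d)) (hS : S ⊆ S') (β : ℝ)
    (f : Finset (Vx d) → ℝ) (hf : ∀ T, f (T ∩ S) = f T) :
    GZ S' (edg S') (fun e => bond e) (fun e => if e ∈ edg S then β else 0) f =
      2 ^ (S' \ S).card * GI S (edg S) β f := by
  unfold GZ GI
  rw [← l2_pow S (S' \ S) disjoint_sdiff, union_sdiff_of_subset hS]
  refine sum_congr rfl fun T _ => ?_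
  rw [hf]
  congr 2
  rw [mul_sum]
  have h1 : ∀ e ∈ edg S', (if e ∈ edg S then β else 0) * bond e T =
      if e ∈ edg S then β * bond e T else 0 := by
    intro e _
    split_ifs <;> simp
  rw [sum_congr rfl h1, ← sum_filter]
  have h2 : (edg S').filter (fun e => e ∈ edg S) = edg S := by
    ext e
    rw [mem_filter]
    exact ⟨fun h => h.2, fun h => ⟨l2_edg S S' hS h, h⟩⟩
  rw [h2]
  refine sum_congr rfl fun e he => ?_
  rw [l2_bond S T e he]

private theorem l2_same {d : ℕ} (S : Finset (Vx d)) (β : ℝ) (f : Finset (Vx d) → ℝ) :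
    GZ S (edg S) (fun e => bond e) (fun _ => β) f = GI S (edg S) β f := by
  unfold GZ GI
  refine sum_congr rfl fun T _ => ?_
  rw [mul_sum]

private theorem l2_pos {d : ℕ} (S : Finset (Vx d)) (E : Finset (Ed d)) (β : ℝ) :
    0 < GI S E β (fun _ => 1) := by
  unfold GI
  refine sum_pos (fun T _ => ?_) ⟨∅, empty_mem_powerset S⟩
  positivity

theorem cf_mono {d : ℕ} (S S' : Finset (Vx d)) (hS : S ⊆ S') (β β' : ℝ) (hβ : 0 ≤ β)
    (hβ' : β ≤ β') (u v : Vx d) (hu : u ∈ S) (hv : v ∈ S) : cf S β u v ≤ cf S' β' u v := by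
  have hA : IsChar (fun T : Finset (Vx d) => spin T u * spin T v) :=
    isChar_mul _ _ (isChar_spin u) (isChar_spin v)
  have key := ginibre S' S' (Subset.refl S') (edg S') (fun e => bond e)
    (fun e _ => isChar_mul _ _ (isChar_spin e.1) (isChar_spin (tip e)))
    (fun _ => β') (fun e => if e ∈ edg S then β else 0)
    (fun e _ => by
      show (0 : ℝ) ≤ if e ∈ edg S then β else 0
      split_ifs
      · exact hβ
      · exact le_refl 0)
    (fun e _ => Or.inl (by
      show (if e ∈ edg S then β else 0) ≤ β'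
      split_ifs
      · exact hβ'
      · exact le_trans hβ hβ'))
    (fun T => spin T u * spin T v) (fun _ => 1) hA isChar_one 1 (Or.inl rfl)
  simp only [mul_one, one_mul] at key
  rw [l2_same, l2_same, l2_big S S' hS β (fun T => spin T u * spin T v) (fun T => by
      show spin (T ∩ S) u * spin (T ∩ S) v = _
      rw [l2_spin S T u hu, l2_spin S T v hv]),
    l2_big S S' hS β (fun _ => 1) (fun _ => rfl)] at key
  unfold cf av
  rw [div_le_div_iff₀ (l2_pos S (edg S) β) (l2_pos S' (edg S') β')]
  have h2 : (0 : ℝ) < 2 ^ (S' \ S).card := by positivity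
  nlinarith [key, h2]

end Pool.Agent.TC
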