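import Pool.Agent.TC.L1

/-! Module l3: plus correlations and magnetisation decrease with the set and increase with `β`. -/

set_option autoImplicit false

namespace Pool.Agent.TC

open Finset Filter Pool.Agent.SRC

theorem l3_etg_mono {d : ℕ} {S S' : Finset (Vx d)} (hS : S ⊆ S') : etg S ⊆ etg S' := by
  unfold etg
  exact Finset.union_subset_union (Finset.product_subset_product_left hS)
    (Finset.image_subset_image (Finset.product_subset_product_left hS))

theorem l3_bond_one {d : ℕ} {S : Finset (Vx d)} {e : Ed d} (he : e ∉ etg S) {T : Finset (Vx d)}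
    (hT : T ⊆ S) : bond e T = 1 := by
  unfold etg at he
  rw [Finset.mem_union, not_or] at he
  have h1 : e.1 ∉ T := by
    intro h
    exact he.1 (Finset.mem_product.2 ⟨hT h, Finset.mem_univ _⟩)
  have h2 : tip e ∉ T := by
    intro h
    apply he.2
    rw [Finset.mem_image]
    refine ⟨(tip e, e.2), Finset.mem_product.2 ⟨hT h, Finset.mem_univ _⟩, ?_⟩
    unfold tip
    simp
  unfold bond spin
  rw [if_neg h1, if_neg h2]
  norm_num

theorem l3_GZ_sub {d : ℕ} {S S' : Finset (Vx d)} (hS : S ⊆ S') (β : ℝ)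
    (f : Finset (Vx d) → ℝ) : GZ S (etg S') bond (fun _ => β) f =
      Real.exp (β * ((etg S' \ etg S).card : ℝ)) * GI S (etg S) β f := by
  unfold GZ GI
  rw [Finset.mul_sum]
  refine Finset.sum_congr rfl fun T hT => ?_
  rw [Finset.mem_powerset] at hT
  have h1 : ∑ i ∈ etg S', β * bond i T =
      β * ((etg S' \ etg S).card : ℝ) + β * ∑ e ∈ etg S, bond e T := by
    rw [← Finset.sum_sdiff (l3_etg_mono hS), ← Finset.mul_sum, ← Finset.mul_sum]
    congr 1
    rw [Finset.sum_congr rfl (fun e he => l3_bond_one (Finset.mem_sdiff.1 he).2 hT)]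
    simp
  rw [h1, Real.exp_add]
  ring

theorem l3_GZ_self {d : ℕ} (S : Finset (Vx d)) (β : ℝ) (f : Finset (Vx d) → ℝ) :
    GZ S (etg S) bond (fun _ => β) f = GI S (etg S) β f := by
  unfold GZ GI
  refine Finset.sum_congr rfl fun T _ => ?_
  rw [← Finset.mul_sum]

theorem l3_GI_pos {d : ℕ} (S : Finset (Vx d)) (E : Finset (Ed d)) (β : ℝ) :
    0 < GI S E β (fun _ => 1) := by
  unfold GI
  apply Finset.sum_pos
  · intro T _
    rw [one_mul]
    exact Real.exp_pos _
  · exact ⟨∅, Finset.empty_mem_powerset S⟩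

theorem l3_char_bond {d : ℕ} (e : Ed d) : IsChar (bond e) :=
  isChar_mul (fun T => spin T e.1) (fun T => spin T (tip e)) (isChar_spin _) (isChar_spin _)

/-- the common statement for characters -/
theorem l3_main {d : ℕ} (S S' : Finset (Vx d)) (hS : S ⊆ S') (β β' : ℝ) (hβ : 0 ≤ β)
    (hβ' : β ≤ β') (A : Finset (Vx d) → ℝ) (hA : IsChar A) :
    av S' (etg S') β A ≤ av S (etg S) β' A := by
  have h := ginibre S S' hS (etg S') bond (fun i _ => l3_char_bond i) (fun _ => β') (fun _ => β)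
    (fun _ _ => hβ) (fun _ _ => Or.inl hβ') A (fun _ => 1) hA isChar_one 1 (Or.inl rfl)
  simp only [mul_one, one_mul] at h
  rw [l3_GZ_sub hS, l3_GZ_sub hS, l3_GZ_self, l3_GZ_self] at h
  unfold av
  have p1 := l3_GI_pos S (etg S) β'
  have p2 := l3_GI_pos S' (etg S') β
  rw [div_le_div_iff₀ p2 p1]
  have hc : 0 < Real.exp (β' * ((etg S' \ etg S).card : ℝ)) := Real.exp_pos _
  have h2 : 0 ≤ Real.exp (β' * ((etg S' \ etg S).card : ℝ)) *
      (GI S (etg S) β' A * GI S' (etg S') β (fun _ => 1) -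
        GI S' (etg S') β A * GI S (etg S) β' (fun _ => 1)) := by
    linarith
  have h3 := nonneg_of_mul_nonneg_right h2 hc
  linarith

/-- Module l3: plus correlations and magnetisation decrease with the set and increase with `β`. -/
theorem cp_anti {d : ℕ} (S S' : Finset (Vx d)) (hS : S ⊆ S') (β β' : ℝ) (hβ : 0 ≤ β)
    (hβ' : β ≤ β') (u v : Vx d) (hu : u ∈ S) (hv : v ∈ S) : cp S' β u v ≤ cp S β' u v :=
  l3_main S S' hS β β' hβ hβ' _
    (isChar_mul (fun T => spin T u) (fun T => spin T v) (isChar_spin _) (isChar_spin _))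

theorem mp_anti {d : ℕ} (S S' : Finset (Vx d)) (hS : S ⊆ S') (β β' : ℝ) (hβ : 0 ≤ β)
    (hβ' : β ≤ β') (u : Vx d) (hu : u ∈ S) : mp S' β u ≤ mp S β' u :=
  l3_main S S' hS β β' hβ hβ' _ (isChar_spin u)

end Pool.Agent.TC
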