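import Pool.Agent.TC.L1

set_option autoImplicit false

namespace Pool.Agent.TC

open Finset Filter Pool.Agent.SRC

/-! module l4 -/

private theorem l4_GI_eq {d : ℕ} (S : Finset (Vx d)) (E : Finset (Ed d)) (β : ℝ)
    (f : Finset (Vx d) → ℝ) : GI S E β f = GZ S E bond (fun _ => β) f := by
  unfold GI GZ
  refine Finset.sum_congr rfl fun T _ => ?_
  rw [Finset.mul_sum]

private theorem l4_edg_sub {d : ℕ} (S : Finset (Vx d)) : edg S ⊆ etg S := by
  intro e he
  rw [mem_edg] at he
  unfold etg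
  rw [Finset.mem_union]
  left
  rw [Finset.mem_product]
  exact ⟨he.1, Finset.mem_univ _⟩

private theorem l4_GI_free {d : ℕ} (S : Finset (Vx d)) (β : ℝ)
    (f : Finset (Vx d) → ℝ) :
    GI S (edg S) β f = GZ S (etg S) bond (fun e => if e ∈ edg S then β else 0) f := by
  unfold GI GZ
  refine Finset.sum_congr rfl fun T _ => ?_
  congr 2
  rw [Finset.mul_sum, ← Finset.sum_subset (l4_edg_sub S)]
  · refine Finset.sum_congr rfl fun e he => ?_
    dsimp only
    rw [if_pos he]
  · intro e _ he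
    dsimp only
    rw [if_neg he, zero_mul]

private theorem l4_bond_char {d : ℕ} (e : Ed d) : IsChar (bond e : Finset (Vx d) → ℝ) :=
  isChar_mul (fun T => spin T e.1) (fun T => spin T (tip e)) (isChar_spin e.1) (isChar_spin (tip e))

private theorem l4_pos {d : ℕ} (S : Finset (Vx d)) (E : Finset (Ed d)) (β : ℝ) :
    0 < GI S E β (fun _ => 1) := by
  unfold GI
  refine Finset.sum_pos (fun T _ => ?_) ⟨∅, Finset.mem_powerset.mpr (Finset.empty_subset S)⟩
  rw [one_mul]
  exact Real.exp_pos _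

private theorem l4_av_le_one {d : ℕ} (S : Finset (Vx d)) (E : Finset (Ed d)) (β : ℝ)
    (f : Finset (Vx d) → ℝ) (hf : IsChar f) : av S E β f ≤ 1 := by
  unfold av
  rw [div_le_one (l4_pos S E β)]
  unfold GI
  refine Finset.sum_le_sum fun T _ => ?_
  refine mul_le_mul_of_nonneg_right ?_ (Real.exp_pos _).le
  rcases hf.1 T with h | h <;> rw [h]
  norm_num

private theorem l4_av_nonneg {d : ℕ} (S : Finset (Vx d)) (E : Finset (Ed d)) (β : ℝ) (hβ : 0 ≤ β)
    (f : Finset (Vx d) → ℝ) (hf : IsChar f) : 0 ≤ av S E β f := by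
  unfold av
  refine div_nonneg ?_ (l4_pos S E β).le
  rw [l4_GI_eq]
  exact griffiths1 S E bond (fun e _ => l4_bond_char e) _ (fun _ _ => hβ) f hf

private theorem l4_uv_char {d : ℕ} (u v : Vx d) :
    IsChar (fun T : Finset (Vx d) => spin T u * spin T v) :=
  isChar_mul _ _ (isChar_spin u) (isChar_spin v)

private theorem l4_gin {d : ℕ} (S : Finset (Vx d)) (β : ℝ) (hβ : 0 ≤ β)
    (A B : Finset (Vx d) → ℝ) (hA : IsChar A) (hB : IsChar B) :
    av S (etg S) β B * av S (edg S) β A - av S (etg S) β A * av S (edg S) β B ≤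
      av S (etg S) β (fun T => A T * B T) - av S (edg S) β (fun T => A T * B T) := by
  have h := ginibre S S (Finset.Subset.refl S) (etg S) bond (fun e _ => l4_bond_char e)
    (fun _ => β) (fun e => if e ∈ edg S then β else 0)
    (fun e _ => by split_ifs; exacts [hβ, le_refl _])
    (fun e _ => Or.inl (by split_ifs; exacts [le_refl _, hβ])) A B hA hB 1 (Or.inl rfl)
  simp only [← l4_GI_eq, ← l4_GI_free] at h
  have hp := l4_pos S (etg S) β
  have hq := l4_pos S (edg S) β
  unfold av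
  rw [div_mul_div_comm, div_mul_div_comm, div_sub_div_same, div_sub_div _ _ hp.ne' hq.ne']
  rw [div_le_div_iff_of_pos_right (mul_pos hp hq)]
  linarith

/-- Module l4: comparison free / plus, product of magnetisations, bounds. -/
theorem cf_le_cp {d : ℕ} (S : Finset (Vx d)) (β : ℝ) (hβ : 0 ≤ β) (u v : Vx d) (hu : u ∈ S)
    (hv : v ∈ S) : 0 ≤ cf S β u v ∧ cf S β u v ≤ cp S β u v ∧ cp S β u v ≤ 1 := by
  refine ⟨l4_av_nonneg S _ β hβ _ (l4_uv_char u v), ?_, l4_av_le_one S _ β _ (l4_uv_char u v)⟩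
  have h := l4_gin S β hβ (fun _ => 1) (fun T : Finset (Vx d) => spin T u * spin T v)
    isChar_one (l4_uv_char u v)
  have h1 : av S (edg S) β (fun _ : Finset (Vx d) => (1 : ℝ)) = 1 := by
    unfold av; exact div_self (l4_pos S _ β).ne'
  have h2 : av S (etg S) β (fun _ : Finset (Vx d) => (1 : ℝ)) = 1 := by
    unfold av; exact div_self (l4_pos S _ β).ne'
  have h' := l4_gin S β hβ (fun T : Finset (Vx d) => spin T u * spin T v) (fun _ => 1)
    (l4_uv_char u v) isChar_one
  simp only [one_mul, mul_one, h1, h2] at h'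
  unfold cf cp
  linarith

theorem mp_mul_le {d : ℕ} (S : Finset (Vx d)) (β : ℝ) (hβ : 0 ≤ β) (u v : Vx d) (hu : u ∈ S)
    (hv : v ∈ S) : 0 ≤ mp S β u ∧ mp S β u * mp S β v ≤ cp S β u v := by
  refine ⟨l4_av_nonneg S _ β hβ _ (isChar_spin u), ?_⟩
  have h := ginibre S S (Finset.Subset.refl S) (etg S) bond (fun e _ => l4_bond_char e)
    (fun _ => β) (fun _ => β) (fun _ _ => hβ) (fun _ _ => Or.inl (le_refl _))
    (fun T => spin T u) (fun T => spin T v) (isChar_spin u) (isChar_spin v) (-1) (Or.inr rfl)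
  simp only [← l4_GI_eq] at h
  have hp := l4_pos S (etg S) β
  unfold mp cp av
  rw [div_mul_div_comm, div_le_div_iff₀ (mul_pos hp hp) hp]
  nlinarith [h, hp]

/-- Lebowitz' inequality: if the pair `v w` has almost the same plus and free correlations then so do the ratios
of the pairs `u v` and `u w`. -/
theorem lebowitz {d : ℕ} (S : Finset (Vx d)) (β : ℝ) (hβ : 0 ≤ β) (u v w : Vx d) (hu : u ∈ S)
    (hv : v ∈ S) (hw : w ∈ S) :
    |cp S β u v * cf S β u w - cf S β u v * cp S β u w| ≤ cp S β v w - cf S β v w := by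
  have key : ∀ a b : Vx d, (fun T : Finset (Vx d) => (spin T u * spin T a) * (spin T u * spin T b)) =
      (fun T => spin T a * spin T b) := by
    intro a b
    funext T
    have : spin T u * spin T u = 1 := by
      unfold spin; split_ifs <;> norm_num
    calc (spin T u * spin T a) * (spin T u * spin T b)
        = (spin T u * spin T u) * (spin T a * spin T b) := by ring
      _ = spin T a * spin T b := by rw [this, one_mul]
  have h1 := l4_gin S β hβ (fun T => spin T u * spin T w) (fun T => spin T u * spin T v)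
    (l4_uv_char u w) (l4_uv_char u v)
  have h2 := l4_gin S β hβ (fun T => spin T u * spin T v) (fun T => spin T u * spin T w)
    (l4_uv_char u v) (l4_uv_char u w)
  rw [key v w] at h2
  have e1 : (fun T : Finset (Vx d) => (spin T u * spin T w) * (spin T u * spin T v)) =
      (fun T => spin T v * spin T w) := by
    rw [key w v]; funext T; ring
  rw [e1] at h1
  unfold cp cf
  rw [abs_le]
  constructor <;> linarith

/-! module l5 -/

private theorem l5_jensen {α : Type*} (s : Finset α) (w g : α → ℝ) (hw : ∀ a ∈ s, 0 ≤ w a)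
    (hW : 0 < ∑ a ∈ s, w a) (m : ℝ) (hm : m = (∑ a ∈ s, g a * w a) / ∑ a ∈ s, w a) :
    Real.exp m * ∑ a ∈ s, w a ≤ ∑ a ∈ s, w a * Real.exp (g a) := by
  have h1 : ∀ a ∈ s, w a * (Real.exp m * (1 + (g a - m))) ≤ w a * Real.exp (g a) := by
    intro a ha
    refine mul_le_mul_of_nonneg_left ?_ (hw a ha)
    have h2 : 1 + (g a - m) ≤ Real.exp (g a - m) := by
      have := Real.add_one_le_exp (g a - m)
      linarith
    calc Real.exp m * (1 + (g a - m)) ≤ Real.exp m * Real.exp (g a - m) :=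
          mul_le_mul_of_nonneg_left h2 (Real.exp_pos m).le
      _ = Real.exp (g a) := by rw [← Real.exp_add]; congr 1; ring
  refine le_trans (le_of_eq ?_) (Finset.sum_le_sum h1)
  have h3 : ∑ a ∈ s, w a * (Real.exp m * (1 + (g a - m))) =
      Real.exp m * ((∑ a ∈ s, w a) + (∑ a ∈ s, g a * w a) - m * ∑ a ∈ s, w a) := by
    rw [Finset.mul_sum, ← Finset.sum_add_distrib, ← Finset.sum_sub_distrib, Finset.mul_sum]
    refine Finset.sum_congr rfl fun a _ => ?_
    ring
  rw [h3]
  have h4 : m * ∑ a ∈ s, w a = ∑ a ∈ s, g a * w a := by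
    rw [hm, div_mul_cancel₀ _ hW.ne']
  rw [h4]
  ring

private theorem l5_one {d : ℕ} (S : Finset (Vx d)) (E : Finset (Ed d)) (β β' : ℝ) :
    Real.exp ((β' - β) * ∑ e ∈ E, av S E β (bond e)) * GI S E β (fun _ => 1) ≤
      GI S E β' (fun _ => 1) := by
  have h := l5_jensen S.powerset (fun T => Real.exp (β * ∑ e ∈ E, bond e T))
    (fun T => (β' - β) * ∑ e ∈ E, bond e T) (fun T _ => (Real.exp_pos _).le)
    (by
      have := l4_pos S E β
      unfold GI at this
      simpa using this)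
    ((β' - β) * ∑ e ∈ E, av S E β (bond e)) (by
      have e0 : GI S E β (fun _ => 1) = ∑ T ∈ S.powerset, Real.exp (β * ∑ e ∈ E, bond e T) := by
        unfold GI; simp
      rw [← e0]
      rw [eq_div_iff (l4_pos S E β).ne']
      unfold av
      rw [← Finset.sum_div]
      rw [mul_assoc, div_mul_cancel₀ _ (l4_pos S E β).ne']
      unfold GI
      rw [Finset.sum_comm, Finset.mul_sum]
      refine Finset.sum_congr rfl fun T _ => ?_
      rw [← Finset.sum_mul]
      ring)
  have e0 : GI S E β (fun _ => 1) = ∑ T ∈ S.powerset, Real.exp (β * ∑ e ∈ E, bond e T) := by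
    unfold GI; simp
  have e1 : GI S E β' (fun _ => 1) = ∑ T ∈ S.powerset,
      Real.exp (β * ∑ e ∈ E, bond e T) * Real.exp ((β' - β) * ∑ e ∈ E, bond e T) := by
    unfold GI
    refine Finset.sum_congr rfl fun T _ => ?_
    rw [one_mul, ← Real.exp_add]
    congr 1
    ring
  rw [e0, e1]
  exact h

private theorem l5_bond_abs {d : ℕ} (e : Ed d) (T : Finset (Vx d)) :
    bond e T ≤ 1 ∧ -1 ≤ bond e T := by
  rcases (l4_bond_char e).1 T with h | h <;> rw [h] <;> constructor <;> norm_num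

private theorem l5_diff {d : ℕ} (S : Finset (Vx d)) (T : Finset (Vx d)) :
    (∑ e ∈ etg S, bond e T) ≤ (∑ e ∈ edg S, bond e T) + ((etg S).card - (edg S).card : ℝ) ∧
    (∑ e ∈ edg S, bond e T) ≤ (∑ e ∈ etg S, bond e T) + ((etg S).card - (edg S).card : ℝ) := by
  have hs := l4_edg_sub S
  have h1 : (∑ e ∈ etg S, bond e T) = (∑ e ∈ etg S \ edg S, bond e T) + ∑ e ∈ edg S, bond e T :=
    (Finset.sum_sdiff hs).symm
  have h2 : ((etg S \ edg S).card : ℝ) = (etg S).card - (edg S).card := by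
    rw [Finset.card_sdiff_of_subset hs, Nat.cast_sub (Finset.card_le_card hs)]
  have h3 : (∑ e ∈ etg S \ edg S, bond e T) ≤ ((etg S \ edg S).card : ℝ) := by
    calc (∑ e ∈ etg S \ edg S, bond e T) ≤ ∑ e ∈ etg S \ edg S, (1 : ℝ) :=
          Finset.sum_le_sum fun e _ => (l5_bond_abs e T).1
      _ = ((etg S \ edg S).card : ℝ) := by simp
  have h4 : -((etg S \ edg S).card : ℝ) ≤ (∑ e ∈ etg S \ edg S, bond e T) := by
    calc -((etg S \ edg S).card : ℝ) = ∑ e ∈ etg S \ edg S, (-1 : ℝ) := by simp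
      _ ≤ (∑ e ∈ etg S \ edg S, bond e T) :=
          Finset.sum_le_sum fun e _ => (l5_bond_abs e T).2
  rw [h2] at h3 h4
  constructor <;> linarith

private theorem l5_cmp {d : ℕ} (S : Finset (Vx d)) (E E' : Finset (Ed d)) (β n : ℝ) (hβ : 0 ≤ β)
    (h : ∀ T, (∑ e ∈ E, bond e T) ≤ (∑ e ∈ E', bond e T) + n) :
    GI S E β (fun _ => 1) ≤ Real.exp (β * n) * GI S E' β (fun _ => 1) := by
  unfold GI
  rw [Finset.mul_sum]
  refine Finset.sum_le_sum fun T _ => ?_
  rw [one_mul, one_mul, ← Real.exp_add]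
  refine Real.exp_le_exp.mpr ?_
  have := mul_le_mul_of_nonneg_left (h T) hβ
  linarith

/-- Module l5: energy comparison from the convexity of the logarithm of the partition function. -/
theorem energy {d : ℕ} (S : Finset (Vx d)) (β₁ β₂ : ℝ) (h0 : 0 ≤ β₁) (h : β₁ < β₂) :
    (β₂ - β₁) * ∑ e ∈ edg S, cp S β₁ e.1 (tip e) ≤
      (β₂ - β₁) * ∑ e ∈ edg S, cf S β₂ e.1 (tip e) + 2 * β₂ * ((etg S).card - (edg S).card) := by
  set n : ℝ := (etg S).card - (edg S).card with hn
  have hn0 : 0 ≤ n := by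
    rw [hn, sub_nonneg]
    exact_mod_cast Finset.card_le_card (l4_edg_sub S)
  have hb2 : 0 ≤ β₂ := h0.trans h.le
  have a1 := l5_one S (etg S) β₁ β₂
  have a2 := l5_one S (edg S) β₂ β₁
  have a3 := l5_cmp S (etg S) (edg S) β₂ n hb2 (fun T => (l5_diff S T).1)
  have a4 := l5_cmp S (edg S) (etg S) β₁ n h0 (fun T => (l5_diff S T).2)
  set a := (β₂ - β₁) * ∑ e ∈ etg S, av S (etg S) β₁ (bond e) with ha
  set b := (β₁ - β₂) * ∑ e ∈ edg S, av S (edg S) β₂ (bond e) with hb
  have p1 := l4_pos S (etg S) β₁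
  have p2 := l4_pos S (edg S) β₂
  have m1 : Real.exp a * GI S (etg S) β₁ (fun _ => 1) ≤
      Real.exp (β₂ * n) * GI S (edg S) β₂ (fun _ => 1) := a1.trans a3
  have m2 : Real.exp b * GI S (edg S) β₂ (fun _ => 1) ≤
      Real.exp (β₁ * n) * GI S (etg S) β₁ (fun _ => 1) := a2.trans a4
  have m3 := mul_le_mul m1 m2 (mul_nonneg (Real.exp_pos b).le p2.le)
    (mul_nonneg (Real.exp_pos _).le p2.le)
  have m4 : Real.exp (a + b) * (GI S (etg S) β₁ (fun _ => 1) * GI S (edg S) β₂ (fun _ => 1)) ≤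
      Real.exp (β₂ * n + β₁ * n) *
        (GI S (etg S) β₁ (fun _ => 1) * GI S (edg S) β₂ (fun _ => 1)) := by
    rw [Real.exp_add, Real.exp_add]
    linarith
  have m5 := le_of_mul_le_mul_right m4 (mul_pos p1 p2)
  have m6 : a + b ≤ β₂ * n + β₁ * n := Real.exp_le_exp.mp m5
  have m7 : ∑ e ∈ edg S, cp S β₁ e.1 (tip e) ≤ ∑ e ∈ etg S, av S (etg S) β₁ (bond e) := by
    have : ∑ e ∈ edg S, cp S β₁ e.1 (tip e) = ∑ e ∈ edg S, av S (etg S) β₁ (bond e) := rfl
    rw [this]
    exact Finset.sum_le_sum_of_subset_of_nonneg (l4_edg_sub S)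
      (fun e _ _ => l4_av_nonneg S _ β₁ h0 _ (l4_bond_char e))
  have m8 : ∑ e ∈ edg S, cf S β₂ e.1 (tip e) = ∑ e ∈ edg S, av S (edg S) β₂ (bond e) := rfl
  have m9 := mul_le_mul_of_nonneg_left m7 (sub_nonneg.mpr h.le)
  rw [m8]
  have m10 : β₁ * n ≤ β₂ * n := mul_le_mul_of_nonneg_right h.le hn0
  have e1 : b = -((β₂ - β₁) * ∑ e ∈ edg S, av S (edg S) β₂ (bond e)) := by rw [hb]; ring
  rw [e1] at m6
  linarith

end Pool.Agent.TC
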