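import Pool.Agent.TC.L4

/-! Module l5 (`energy`) is in the file `L4`. -/
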