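import Pool.Agent.TC.LebDefs

set_option autoImplicit false

namespace Pool.Agent.TC

open Finset Filter Pool.Agent.SRC

private theorem l7_fib {d : ℕ} (s : Finset (Ed d)) (B : Fin d → Finset (Vx d))
    (h : ∀ e : Ed d, e ∈ s ↔ e.1 ∈ B e.2) (i : Fin d) :
    (s.filter (fun e => e.2 = i)).card = (B i).card := by
  symm
  apply Finset.card_bij (fun v _ => ((v, i) : Ed d))
  · intro v hv
    rw [Finset.mem_filter, h]
    exact ⟨hv, rfl⟩
  · intro v _ w _ hvw
    exact congrArg Prod.fst hvw
  · intro e he
    rw [Finset.mem_filter, h] at he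
    refine ⟨e.1, ?_, ?_⟩
    · rw [← he.2]; exact he.1
    · rw [← he.2]

private theorem l7_tot {d : ℕ} (s : Finset (Ed d)) :
    s.card = ∑ i : Fin d, (s.filter (fun e => e.2 = i)).card :=
  Finset.card_eq_sum_card_fiberwise (fun _ _ => Finset.mem_univ _)

private theorem l7_tip {d : ℕ} (v : Vx d) (i j : Fin d) :
    tip ((v, i) : Ed d) j = v j + (if j = i then 1 else 0) := by
  unfold tip uv
  simp only [Pi.add_apply, Pi.single_apply]

private theorem l7_prod {d : ℕ} (hd : 1 ≤ d) (i : Fin d) (x y : ℕ) :
    ∏ j : Fin d, (if j = i then x else y) = x * y ^ (d - 1) := by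
  rw [← Finset.mul_prod_erase Finset.univ _ (Finset.mem_univ i), if_pos rfl]
  congr 1
  rw [Finset.prod_congr rfl (g := fun _ => y)
    (fun j hj => if_neg (Finset.ne_of_mem_erase hj)), Finset.prod_const,
    Finset.card_erase_of_mem (Finset.mem_univ i), Finset.card_univ, Fintype.card_fin]

private theorem l7_card {d : ℕ} (hd : 1 ≤ d) (i : Fin d) (L : ℕ) (p q : ℤ) (n : ℕ)
    (hn : ((L : ℤ) + q + 1 - (-(L : ℤ) + p)).toNat = n) :
    (Finset.Icc (fun j : Fin d => -(L : ℤ) + (if j = i then p else 0))
      (fun j => (L : ℤ) + (if j = i then q else 0))).card = n * (2 * L + 1) ^ (d - 1) := by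
  rw [Pi.card_Icc, ← l7_prod hd i]
  apply Finset.prod_congr rfl
  intro j _
  rw [Int.card_Icc]
  by_cases h : j = i
  · rw [if_pos h, if_pos h, if_pos h, hn]
  · rw [if_neg h, if_neg h, if_neg h]
    omega

/-- Module l7: the boxes `[-L, L]^d` have few boundary edges and equally many edges in each direction. -/
theorem box_count (d : ℕ) (hd : 1 ≤ d) (L : ℕ) :
    (∀ i : Fin d, (((edg (Finset.Icc (fun _ : Fin d => -(L : ℤ)) (fun _ => (L : ℤ)))).filter
      (fun e => e.2 = i)).card = (2 * L) * (2 * L + 1) ^ (d - 1))) ∧
    (etg (Finset.Icc (fun _ : Fin d => -(L : ℤ)) (fun _ => (L : ℤ)))).card =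
      (edg (Finset.Icc (fun _ : Fin d => -(L : ℤ)) (fun _ => (L : ℤ)))).card +
        2 * d * (2 * L + 1) ^ (d - 1) := by
  have h1 : ∀ i : Fin d, (((edg (Finset.Icc (fun _ : Fin d => -(L : ℤ)) (fun _ => (L : ℤ)))).filter
      (fun e => e.2 = i)).card = (2 * L) * (2 * L + 1) ^ (d - 1)) := by
    intro i
    rw [l7_fib _ (fun i => Finset.Icc (fun j : Fin d => -(L : ℤ) + (if j = i then 0 else 0))
      (fun j => (L : ℤ) + (if j = i then -1 else 0)))]
    · exact l7_card hd i L 0 (-1) (2 * L) (by omega)
    · intro e
      rw [mem_edg]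
      obtain ⟨v, k⟩ := e
      simp only [Finset.mem_Icc, Pi.le_def, l7_tip]
      constructor
      · rintro ⟨⟨ha, hb⟩, hc, hd'⟩
        refine ⟨fun j => ?_, fun j => ?_⟩
        · have := ha j
          split_ifs <;> omega
        · have h2 := hb j
          have h3 := hd' j
          by_cases hj : j = k
          · rw [if_pos hj] at h3 ⊢
            omega
          · rw [if_neg hj]
            omega
      · rintro ⟨ha, hb⟩
        refine ⟨⟨fun j => ?_, fun j => ?_⟩, fun j => ?_, fun j => ?_⟩
        · have := ha j
          split_ifs at this <;> omega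
        · have := hb j
          split_ifs at this <;> omega
        · have := ha j
          split_ifs at this ⊢ <;> omega
        · have := hb j
          split_ifs at this ⊢ <;> omega
  refine ⟨h1, ?_⟩
  have h2 : ∀ i : Fin d, (((etg (Finset.Icc (fun _ : Fin d => -(L : ℤ)) (fun _ => (L : ℤ)))).filter
      (fun e => e.2 = i)).card = (2 * L + 2) * (2 * L + 1) ^ (d - 1)) := by
    intro i
    rw [l7_fib _ (fun i => Finset.Icc (fun j : Fin d => -(L : ℤ) + (if j = i then -1 else 0))
      (fun j => (L : ℤ) + (if j = i then 0 else 0)))]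
    · exact l7_card hd i L (-1) 0 (2 * L + 2) (by omega)
    · intro e
      have hm : ∀ (S : Finset (Vx d)) (e : Ed d), e ∈ etg S ↔ e.1 ∈ S ∨ tip e ∈ S := by
        intro S e
        unfold etg
        rw [Finset.mem_union, Finset.mem_product, Finset.mem_image]
        constructor
        · rintro (h | ⟨p, hp, hpe⟩)
          · exact Or.inl h.1
          · right
            rw [← hpe]
            unfold tip
            simp only [sub_add_cancel]
            exact (Finset.mem_product.mp hp).1
        · rintro (h | h)
          · exact Or.inl ⟨h, Finset.mem_univ _⟩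
          · right
            refine ⟨(tip e, e.2), Finset.mem_product.mpr ⟨h, Finset.mem_univ _⟩, ?_⟩
            unfold tip
            simp
      rw [hm]
      obtain ⟨v, k⟩ := e
      simp only [Finset.mem_Icc, Pi.le_def, l7_tip]
      constructor
      · rintro (⟨ha, hb⟩ | ⟨ha, hb⟩)
        · refine ⟨fun j => ?_, fun j => ?_⟩
          · have := ha j
            split_ifs <;> omega
          · have := hb j
            split_ifs <;> omega
        · refine ⟨fun j => ?_, fun j => ?_⟩
          · have := ha j
            split_ifs at this ⊢ <;> omega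
          · have := hb j
            split_ifs at this ⊢ <;> omega
      · rintro ⟨ha, hb⟩
        by_cases hk : -(L : ℤ) ≤ v k
        · left
          refine ⟨fun j => ?_, fun j => ?_⟩
          · have := ha j
            by_cases hj : j = k
            · rw [hj]; exact hk
            · rw [if_neg hj] at this
              omega
          · have := hb j
            split_ifs at this <;> omega
        · right
          refine ⟨fun j => ?_, fun j => ?_⟩
          · have := ha j
            split_ifs at this ⊢ <;> omega
          · have := hb j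
            by_cases hj : j = k
            · rw [if_pos hj, hj]
              omega
            · rw [if_neg hj]
              split_ifs at this <;> omega
  rw [l7_tot (etg _), l7_tot (edg _), Finset.sum_congr rfl (fun i _ => h1 i),
    Finset.sum_congr rfl (fun i _ => h2 i), Finset.sum_const, Finset.sum_const, Finset.card_univ,
    Fintype.card_fin, smul_eq_mul, smul_eq_mul]
  ring

end Pool.Agent.TC
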