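import Pool.Agent.TC.LebDefs
import Pool.Agent.TC.L2
import Pool.Agent.TC.L3
import Pool.Agent.TC.L4
import Pool.Agent.TC.L5
import Pool.Agent.TC.L6
import Pool.Agent.TC.L7

set_option autoImplicit false

namespace Pool.Agent.TC

open Finset Filter Pool.Agent.SRC

/-- Infinite-volume nearest-neighbour correlations in direction `i`. -/
noncomputable def gfree {d : ℕ} (i : Fin d) (β : ℝ) : ℝ :=
  ⨆ S : {S : Finset (Vx d) // (0 : Vx d) ∈ S ∧ uv i ∈ S}, cf S.1 β 0 (uv i)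

noncomputable def hplus {d : ℕ} (i : Fin d) (β : ℝ) : ℝ :=
  ⨅ S : {S : Finset (Vx d) // (0 : Vx d) ∈ S ∧ uv i ∈ S}, cp S.1 β 0 (uv i)

private theorem l8_bdd_cf {d : ℕ} (i : Fin d) (β : ℝ) (hβ : 0 ≤ β) :
    BddAbove (Set.range (fun S : {S : Finset (Vx d) // (0 : Vx d) ∈ S ∧ uv i ∈ S} =>
      cf S.1 β 0 (uv i))) := by
  refine ⟨1, ?_⟩
  rintro _ ⟨S, rfl⟩
  obtain ⟨_, h2, h3⟩ := cf_le_cp S.1 β hβ 0 (uv i) S.2.1 S.2.2
  exact h2.trans h3

private theorem l8_bdd_cp {d : ℕ} (i : Fin d) (β : ℝ) (hβ : 0 ≤ β) :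
    BddBelow (Set.range (fun S : {S : Finset (Vx d) // (0 : Vx d) ∈ S ∧ uv i ∈ S} =>
      cp S.1 β 0 (uv i))) := by
  refine ⟨0, ?_⟩
  rintro _ ⟨S, rfl⟩
  obtain ⟨h1, h2, _⟩ := cf_le_cp S.1 β hβ 0 (uv i) S.2.1 S.2.2
  exact h1.trans h2

private theorem l8_ne {d : ℕ} (i : Fin d) :
    Nonempty {S : Finset (Vx d) // (0 : Vx d) ∈ S ∧ uv i ∈ S} :=
  ⟨⟨{0, uv i}, by simp, by simp⟩⟩

/-- a nearest neighbour free correlation is at most `gfree`. -/
theorem cf_le_gfree {d : ℕ} (S : Finset (Vx d)) (β : ℝ) (hβ : 0 ≤ β) (x : Vx d) (i : Fin d)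
    (hx : x ∈ S) (hy : x + uv i ∈ S) : cf S β x (x + uv i) ≤ gfree i β := by
  have h1 := (cf_shift S β x (x + uv i) (-x)).1
  have e1 : x + -x = 0 := by simp
  have e2 : x + uv i + -x = uv i := by abel
  rw [e1, e2] at h1
  rw [← h1]
  have m1 : (0 : Vx d) ∈ S.image (fun z => z + -x) := Finset.mem_image.mpr ⟨x, hx, by simp⟩
  have m2 : (uv i : Vx d) ∈ S.image (fun z => z + -x) := Finset.mem_image.mpr ⟨x + uv i, hy, e2⟩
  exact le_ciSup (l8_bdd_cf i β hβ) ⟨S.image (fun z => z + -x), m1, m2⟩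

/-- a nearest neighbour plus correlation is at least `hplus`. -/
theorem hplus_le_cp {d : ℕ} (S : Finset (Vx d)) (β : ℝ) (hβ : 0 ≤ β) (x : Vx d) (i : Fin d)
    (hx : x ∈ S) (hy : x + uv i ∈ S) : hplus i β ≤ cp S β x (x + uv i) := by
  have h1 := (cf_shift S β x (x + uv i) (-x)).2.1
  have e1 : x + -x = 0 := by simp
  have e2 : x + uv i + -x = uv i := by abel
  rw [e1, e2] at h1
  rw [← h1]
  have m1 : (0 : Vx d) ∈ S.image (fun z => z + -x) := Finset.mem_image.mpr ⟨x, hx, by simp⟩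
  have m2 : (uv i : Vx d) ∈ S.image (fun z => z + -x) := Finset.mem_image.mpr ⟨x + uv i, hy, e2⟩
  exact ciInf_le (l8_bdd_cp i β hβ) ⟨S.image (fun z => z + -x), m1, m2⟩

private theorem l8_sum {d : ℕ} (E : Finset (Ed d)) (f : Fin d → ℝ) :
    ∑ e ∈ E, f e.2 = ∑ i : Fin d, ((E.filter (fun e => e.2 = i)).card : ℝ) * f i := by
  classical
  rw [← Finset.sum_fiberwise_of_maps_to (s := E) (t := Finset.univ) (g := fun e : Ed d => e.2)
    (fun _ _ => Finset.mem_univ _)]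
  refine Finset.sum_congr rfl fun i _ => ?_
  rw [Finset.sum_congr rfl (g := fun _ => f i)]
  · rw [Finset.sum_const, nsmul_eq_mul]
  · intro e he
    rw [(Finset.mem_filter.mp he).2]

private theorem l8_mem_edg {d : ℕ} {S : Finset (Vx d)} {e : Ed d} (h : e ∈ edg S) :
    e.1 ∈ S ∧ tip e ∈ S := by
  unfold edg at h
  rw [Finset.mem_filter, Finset.mem_product] at h
  exact ⟨h.1.1, h.2⟩

/-- Module l8: `∑_i h_i(β₁) ≤ ∑_i g_i(β₂)` for `β₁ < β₂`, `g_i ≤ h_i`, `g_i` monotone. -/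
theorem gh {d : ℕ} (hd : 1 ≤ d) :
    (∀ (i : Fin d) (β : ℝ), 0 ≤ β → gfree i β ≤ hplus i β) ∧
    (∀ (i : Fin d) (β β' : ℝ), 0 ≤ β → β ≤ β' → gfree i β ≤ gfree i β') ∧
    (∀ β₁ β₂ : ℝ, 0 ≤ β₁ → β₁ < β₂ → ∑ i : Fin d, hplus i β₁ ≤ ∑ i : Fin d, gfree i β₂) := by
  classical
  refine ⟨fun i β hβ => ?_, fun i β β' hβ hββ' => ?_, fun β₁ β₂ h0 h => ?_⟩
  · have := l8_ne (d := d) i
    refine ciSup_le fun S => le_ciInf fun S' => ?_
    have hu : (0 : Vx d) ∈ S.1 ∪ S'.1 := Finset.mem_union_left _ S.2.1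
    have hv : (uv i : Vx d) ∈ S.1 ∪ S'.1 := Finset.mem_union_left _ S.2.2
    calc cf S.1 β 0 (uv i) ≤ cf (S.1 ∪ S'.1) β 0 (uv i) :=
          cf_mono _ _ Finset.subset_union_left β β hβ le_rfl _ _ S.2.1 S.2.2
      _ ≤ cp (S.1 ∪ S'.1) β 0 (uv i) := (cf_le_cp _ β hβ _ _ hu hv).2.1
      _ ≤ cp S'.1 β 0 (uv i) :=
          cp_anti _ _ Finset.subset_union_right β β hβ le_rfl _ _ S'.2.1 S'.2.2
  · exact ciSup_mono (l8_bdd_cf i β' (hβ.trans hββ')) fun S =>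
      cf_mono _ _ (Finset.Subset.refl _) β β' hβ hββ' _ _ S.2.1 S.2.2
  · -- the energy inequality in the box of side `2 L + 1`
    have hβ₂ : 0 ≤ β₂ := h0.trans h.le
    have key : ∀ L : ℕ, 1 ≤ L → ∑ i : Fin d, hplus i β₁ ≤
        ∑ i : Fin d, gfree i β₂ + (2 * β₂ * d / (β₂ - β₁)) * (1 / (L : ℝ)) := by
      intro L hL
      set B : Finset (Vx d) := Finset.Icc (fun _ : Fin d => -(L : ℤ)) (fun _ => (L : ℤ)) with hB
      obtain ⟨c1, c2⟩ := box_count d hd L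
      rw [← hB] at c1 c2
      have en := energy B β₁ β₂ h0 h
      have a1 : ∑ e ∈ edg B, hplus e.2 β₁ ≤ ∑ e ∈ edg B, cp B β₁ e.1 (tip e) :=
        Finset.sum_le_sum fun e he =>
          hplus_le_cp B β₁ h0 e.1 e.2 (l8_mem_edg he).1 (l8_mem_edg he).2
      have a2 : ∑ e ∈ edg B, cf B β₂ e.1 (tip e) ≤ ∑ e ∈ edg B, gfree e.2 β₂ :=
        Finset.sum_le_sum fun e he =>
          cf_le_gfree B β₂ hβ₂ e.1 e.2 (l8_mem_edg he).1 (l8_mem_edg he).2
      rw [l8_sum (edg B) (fun i => hplus i β₁)] at a1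
      rw [l8_sum (edg B) (fun i => gfree i β₂)] at a2
      simp only [c1] at a1 a2
      rw [← Finset.mul_sum] at a1 a2
      rw [c2] at en
      push_cast at a1 a2 en
      set P : ℝ := (2 * (L : ℝ) + 1) ^ (d - 1) with hP
      have hPpos : 0 < P := by positivity
      have hLpos : (0 : ℝ) < L := by exact_mod_cast hL
      have hδ : 0 < β₂ - β₁ := sub_pos.mpr h
      have b1 : (β₂ - β₁) * (2 * L * P * ∑ i : Fin d, hplus i β₁) ≤
          (β₂ - β₁) * (2 * L * P * ∑ i : Fin d, gfree i β₂) + 2 * β₂ * (2 * d * P) := by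
        have q1 := mul_le_mul_of_nonneg_left a1 hδ.le
        have q2 := mul_le_mul_of_nonneg_left a2 hδ.le
        have e3 : 2 * β₂ * (((edg B).card : ℝ) + 2 * d * P - (edg B).card) =
            2 * β₂ * (2 * d * P) := by ring
        rw [e3] at en
        linarith
      have b2 : (β₂ - β₁) * (2 * L * P) * ∑ i : Fin d, hplus i β₁ ≤
          (β₂ - β₁) * (2 * L * P) * (∑ i : Fin d, gfree i β₂ +
            (2 * β₂ * d / (β₂ - β₁)) * (1 / (L : ℝ))) := by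
        have e4 : (β₂ - β₁) * (2 * L * P) * ((2 * β₂ * d / (β₂ - β₁)) * (1 / (L : ℝ))) =
            2 * β₂ * (2 * d * P) := by
          field_simp
        rw [mul_add, e4]
        linarith
      exact le_of_mul_le_mul_left b2 (by positivity)
    have lim : Filter.Tendsto (fun L : ℕ => ∑ i : Fin d, gfree i β₂ +
        (2 * β₂ * d / (β₂ - β₁)) * (1 / (L : ℝ))) Filter.atTop
        (nhds (∑ i : Fin d, gfree i β₂ + (2 * β₂ * d / (β₂ - β₁)) * 0)) :=
      (tendsto_one_div_atTop_nhds_zero_nat.const_mul _).const_add _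
    rw [mul_zero, add_zero] at lim
    refine ge_of_tendsto lim ?_
    filter_upwards [Filter.eventually_ge_atTop 1] with L hL
    exact key L hL

end Pool.Agent.TC
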