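import Pool.Agent.TC.L8

/-! TC, module l9: a good inverse temperature in every interval. -/

set_option autoImplicit false

namespace Pool.Agent.TC

open Finset Filter Pool.Agent.SRC

/-- Module l9: a good inverse temperature in every interval. -/
theorem good_beta {d : ℕ} (hd : 1 ≤ d) (β₁ β₂ : ℝ) (h0 : 0 ≤ β₁) (h : β₁ < β₂) :
    ∃ β₀, β₁ < β₀ ∧ β₀ < β₂ ∧ ∀ i : Fin d, gfree i β₀ = hplus i β₀ := by
  obtain ⟨hgh, hmono, hsum⟩ := gh hd
  set G : ℝ → ℝ := fun β => ∑ i : Fin d, gfree i (max β 0) with hG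
  have hGm : Monotone G := by
    intro x y hxy
    exact sum_le_sum fun i _ => hmono i _ _ (le_max_right _ _) (max_le_max hxy le_rfl)
  have hc := hGm.countable_not_continuousAt
  obtain ⟨β₀, hβ₀, hb1, hb2⟩ := (hc.dense_compl ℝ).exists_between h
  have hcont : ContinuousAt G β₀ := by
    by_contra hn
    exact hβ₀ hn
  have hβ0 : 0 ≤ β₀ := h0.trans hb1.le
  refine ⟨β₀, hb1, hb2, ?_⟩
  have hGβ : G β₀ = ∑ i : Fin d, gfree i β₀ := by
    rw [hG]
    simp only [max_eq_left hβ0]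
  have hle : ∑ i : Fin d, hplus i β₀ ≤ ∑ i : Fin d, gfree i β₀ := by
    rw [← hGβ]
    have ht : Tendsto G (nhdsWithin β₀ (Set.Ioi β₀)) (nhds (G β₀)) :=
      hcont.tendsto.mono_left nhdsWithin_le_nhds
    refine ge_of_tendsto ht ?_
    filter_upwards [self_mem_nhdsWithin] with β hβ
    have hβ' : β₀ < β := hβ
    have h1 := hsum β₀ β hβ0 hβ'
    rw [hG]
    simp only [max_eq_left (hβ0.trans hβ'.le)]
    exact h1
  have heq := (sum_eq_sum_iff_of_le (s := univ) fun i _ => hgh i β₀ hβ0).mp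
    (le_antisymm (sum_le_sum fun i _ => hgh i β₀ hβ0) hle)
  exact fun i => heq i (mem_univ i)

end Pool.Agent.TC
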