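import Pool.Agent.TC.LebDefs
import Pool.Agent.TC.L2
import Pool.Agent.TC.L3
import Pool.Agent.TC.L4
import Pool.Agent.TC.L6
import Pool.Agent.TC.L8
import Pool.Agent.TC.L9

set_option autoImplicit false

namespace Pool.Agent.TC

open Finset Filter Pool.Agent.SRC

/-- The box `[-L, L]^d`. -/
private noncomputable abbrev BX (d : ℕ) (L : ℕ) : Finset (Vx d) :=
  Finset.Icc (fun _ : Fin d => -(L : ℤ)) (fun _ => (L : ℤ))

private theorem mem_BX {d : ℕ} {L : ℕ} {x : Vx d} : x ∈ BX d L ↔ ∀ i, |x i| ≤ (L : ℤ) := by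
  rw [Finset.mem_Icc, Pi.le_def, Pi.le_def]
  constructor
  · intro h i
    exact abs_le.mpr ⟨h.1 i, h.2 i⟩
  · intro h
    exact ⟨fun i => (abs_le.mp (h i)).1, fun i => (abs_le.mp (h i)).2⟩

/-- every finite set is in all large boxes. -/
private theorem sub_BX {d : ℕ} (S : Finset (Vx d)) : ∀ᶠ L : ℕ in atTop, S ⊆ BX d L := by
  classical
  have h1 : ∀ x ∈ S, ∀ᶠ L : ℕ in atTop, x ∈ BX d L := by
    intro x _
    filter_upwards [Filter.eventually_ge_atTop (∑ i, (x i).natAbs)] with L hL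
    rw [mem_BX]
    intro i
    have h2 : (x i).natAbs ≤ ∑ i, (x i).natAbs :=
      Finset.single_le_sum (f := fun i => (x i).natAbs) (fun _ _ => Nat.zero_le _)
        (Finset.mem_univ i)
    have h3 : ((x i).natAbs : ℤ) ≤ (L : ℤ) := by exact_mod_cast h2.trans hL
    rwa [Int.natCast_natAbs] at h3
  have h2 := (Filter.eventually_all_finset S).mpr h1
  filter_upwards [h2] with L hL x hx
  exact hL x hx

/-- plus minus free of a neighbour pair vanishes in large boxes, at a good inverse temperature. -/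
private theorem nn_lim {d : ℕ} (β₀ : ℝ) (h0 : 0 ≤ β₀) (i : Fin d) (hg : gfree i β₀ = hplus i β₀)
    (x : Vx d) : Filter.Tendsto
      (fun L : ℕ => cp (BX d L) β₀ x (x + uv i) - cf (BX d L) β₀ x (x + uv i)) atTop (nhds 0) := by
  classical
  rw [Metric.tendsto_atTop']
  intro ε hε
  have ne : Nonempty {S : Finset (Vx d) // (0 : Vx d) ∈ S ∧ uv i ∈ S} :=
    ⟨⟨{0, uv i}, by simp, by simp⟩⟩
  obtain ⟨S, hS⟩ := exists_lt_of_lt_ciSup (f := fun S : {S : Finset (Vx d) //
    (0 : Vx d) ∈ S ∧ uv i ∈ S} => cf S.1 β₀ 0 (uv i))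
    (show gfree i β₀ - ε / 2 < gfree i β₀ by linarith)
  obtain ⟨S', hS'⟩ := exists_lt_of_ciInf_lt (f := fun S : {S : Finset (Vx d) //
    (0 : Vx d) ∈ S ∧ uv i ∈ S} => cp S.1 β₀ 0 (uv i))
    (show hplus i β₀ < hplus i β₀ + ε / 2 by linarith)
  have t1 := cf_shift S.1 β₀ 0 (uv i) x
  have t2 := cf_shift S'.1 β₀ 0 (uv i) x
  have e1 : (0 : Vx d) + x = x := zero_add x
  have e2 : (uv i : Vx d) + x = x + uv i := add_comm _ _
  rw [e1, e2] at t1 t2
  have m1 : x ∈ S.1.image (fun z => z + x) := Finset.mem_image.mpr ⟨0, S.2.1, e1⟩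
  have m2 : x + uv i ∈ S.1.image (fun z => z + x) := Finset.mem_image.mpr ⟨uv i, S.2.2, e2⟩
  have m3 : x ∈ S'.1.image (fun z => z + x) := Finset.mem_image.mpr ⟨0, S'.2.1, e1⟩
  have m4 : x + uv i ∈ S'.1.image (fun z => z + x) := Finset.mem_image.mpr ⟨uv i, S'.2.2, e2⟩
  obtain ⟨N, hN⟩ := Filter.eventually_atTop.mp
    ((sub_BX (S.1.image (fun z => z + x))).and (sub_BX (S'.1.image (fun z => z + x))))
  refine ⟨N, fun L hL => ?_⟩
  obtain ⟨s1, s2⟩ := hN L hL.le
  have f1 : cf (S.1.image (fun z => z + x)) β₀ x (x + uv i) ≤ cf (BX d L) β₀ x (x + uv i) :=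
    cf_mono _ _ s1 β₀ β₀ h0 le_rfl _ _ m1 m2
  have f2 : cp (BX d L) β₀ x (x + uv i) ≤ cp (S'.1.image (fun z => z + x)) β₀ x (x + uv i) :=
    cp_anti _ _ s2 β₀ β₀ h0 le_rfl _ _ m3 m4
  have f3 := (cf_le_cp (BX d L) β₀ h0 x (x + uv i) (s1 m1) (s1 m2)).2.1
  rw [t1.1] at f1
  rw [t2.2.1] at f2
  rw [Real.dist_eq, sub_zero, abs_of_nonneg (by linarith)]
  rw [hg] at hS
  linarith

/-- `ℤ^d` is connected by unit steps. -/
private theorem step_ind {d : ℕ} (P : Vx d → Prop) (h0 : P 0) (h1 : ∀ x i, P x → P (x + uv i))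
    (h2 : ∀ x i, P (x + uv i) → P x) (x : Vx d) : P x := by
  classical
  have a1 : ∀ (i : Fin d) (n : ℕ) (x : Vx d), P x → P (x + (n : ℤ) • uv i) := by
    intro i n
    induction n with
    | zero => intro x hx; simpa using hx
    | succ n ih =>
      intro x hx
      have := h1 _ i (ih x hx)
      rwa [add_assoc, ← add_one_zsmul, show ((n : ℤ) + 1) = ((n + 1 : ℕ) : ℤ) by push_cast; ring]
        at this
  have a2 : ∀ (i : Fin d) (n : ℕ) (x : Vx d), P (x + (n : ℤ) • uv i) → P x := by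
    intro i n
    induction n with
    | zero => intro x hx; simpa using hx
    | succ n ih =>
      intro x hx
      refine ih x (h2 _ i ?_)
      rwa [add_assoc, ← add_one_zsmul, show ((n : ℤ) + 1) = ((n + 1 : ℕ) : ℤ) by push_cast; ring]
  have a3 : ∀ (i : Fin d) (k : ℤ) (x : Vx d), P x → P (x + k • uv i) := by
    intro i k x hx
    rcases Int.eq_nat_or_neg k with ⟨n, rfl | rfl⟩
    · exact a1 i n x hx
    · refine a2 i n _ ?_
      rwa [add_assoc, neg_smul, neg_add_cancel, add_zero]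
  have a4 : ∀ (s : Finset (Fin d)), P (∑ i ∈ s, (x i) • (uv i : Vx d)) := by
    intro s
    induction s using Finset.induction_on with
    | empty => simpa using h0
    | insert i s hi ih =>
      rw [Finset.sum_insert hi, add_comm]
      exact a3 i (x i) _ ih
  have a5 : ∑ i, (x i) • (uv i : Vx d) = x := by
    funext j
    rw [Finset.sum_apply, Finset.sum_eq_single j]
    · simp [uv]
    · intro b _ hb
      simp [uv, Ne.symm hb]
    · intro hj
      exact absurd (Finset.mem_univ j) hj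
  rw [← a5]
  exact a4 _

/-- Module l10: long range order of the free state above a point with positive plus magnetisation. -/
theorem free_lro {d : ℕ} (hd : 1 ≤ d) (β₁ β₂ : ℝ) (h0 : 0 ≤ β₁) (h : β₁ < β₂) (m : ℝ) (hm : 0 ≤ m)
    (hmag : ∀ L : ℕ, m ≤ mp (Finset.Icc (fun _ : Fin d => -(L : ℤ)) (fun _ => (L : ℤ))) β₁ 0)
    (x : Vx d) (c : ℝ) (hc : c < m ^ 2) :
    ∀ᶠ L : ℕ in atTop,
      c ≤ cf (Finset.Icc (fun _ : Fin d => -(L : ℤ)) (fun _ => (L : ℤ))) β₂ 0 x := by
  classical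
  obtain ⟨β₀, hb1, hb2, hgood⟩ := good_beta hd β₁ β₂ h0 h
  have hβ₀ : 0 ≤ β₀ := h0.trans hb1.le
  have hβ₂ : 0 ≤ β₂ := h0.trans h.le
  have hz : ∀ L : ℕ, (0 : Vx d) ∈ BX d L := fun L => mem_BX.mpr fun i => by simp
  -- the plus magnetisation is at least `m` everywhere
  have hmagv : ∀ (v : Vx d) (L : ℕ), v ∈ BX d L → m ≤ mp (BX d L) β₀ v := by
    intro v L hv
    obtain ⟨N, hN⟩ := Filter.eventually_atTop.mp (sub_BX ((BX d L).image (fun z => z + -v)))
    have h1 := hmag N
    have h2 := (cf_shift (BX d L) β₀ v v (-v)).2.2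
    have e1 : v + -v = 0 := by simp
    rw [e1] at h2
    rw [← h2]
    have m1 : (0 : Vx d) ∈ (BX d L).image (fun z => z + -v) := Finset.mem_image.mpr ⟨v, hv, e1⟩
    calc m ≤ mp (BX d N) β₁ 0 := h1
      _ ≤ mp ((BX d L).image (fun z => z + -v)) β₀ 0 :=
        mp_anti _ _ (hN N le_rfl) β₁ β₀ h0 hb1.le 0 m1
  have hcp : ∀ (v : Vx d) (L : ℕ), v ∈ BX d L → m ^ 2 ≤ cp (BX d L) β₀ 0 v := by
    intro v L hv
    have h1 := (mp_mul_le (BX d L) β₀ hβ₀ 0 v (hz L) hv).2
    have h2 := hmagv 0 L (hz L)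
    have h3 := hmagv v L hv
    nlinarith
  have hmem : ∀ v : Vx d, ∀ᶠ L : ℕ in atTop, v ∈ BX d L := by
    intro v
    filter_upwards [sub_BX {v}] with L hL
    exact hL (Finset.mem_singleton_self v)
  rcases hm.eq_or_lt with hm0 | hmpos
  · filter_upwards [hmem x] with L hL
    have h1 := (cf_le_cp (BX d L) β₂ hβ₂ 0 x (hz L) hL).1
    rw [← hm0] at hc
    have h2 : c < 0 := by simpa using hc
    exact h2.le.trans h1
  · have hm2 : 0 < m ^ 2 := by positivity
    -- the difference of the two-point functions vanishes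
    let D : Vx d → ℕ → ℝ := fun v L => cp (BX d L) β₀ 0 v - cf (BX d L) β₀ 0 v
    have prop : ∀ v w : Vx d, Filter.Tendsto
        (fun L : ℕ => cp (BX d L) β₀ v w - cf (BX d L) β₀ v w) atTop (nhds 0) →
        Filter.Tendsto (D v) atTop (nhds 0) → Filter.Tendsto (D w) atTop (nhds 0) := by
      intro v w hvw hv
      have up : Filter.Tendsto (fun L : ℕ => (m ^ 2)⁻¹ *
          ((cp (BX d L) β₀ v w - cf (BX d L) β₀ v w) + D v L)) atTop (nhds 0) := by
        have := (hvw.add hv).const_mul (m ^ 2)⁻¹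
        simpa using this
      refine squeeze_zero' ?_ ?_ up
      · filter_upwards [hmem w] with L hw
        have := (cf_le_cp (BX d L) β₀ hβ₀ 0 w (hz L) hw).2.1
        show 0 ≤ cp (BX d L) β₀ 0 w - cf (BX d L) β₀ 0 w
        linarith
      · filter_upwards [hmem v, hmem w] with L h1 h2
        have l1 := lebowitz (BX d L) β₀ hβ₀ 0 v w (hz L) h1 h2
        have l2 := (abs_le.mp l1).1
        have l3 := (abs_le.mp l1).2
        have c1 := cf_le_cp (BX d L) β₀ hβ₀ 0 v (hz L) h1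
        have c2 := cf_le_cp (BX d L) β₀ hβ₀ 0 w (hz L) h2
        have c3 := hcp v L h1
        show cp (BX d L) β₀ 0 w - cf (BX d L) β₀ 0 w ≤ (m ^ 2)⁻¹ *
          ((cp (BX d L) β₀ v w - cf (BX d L) β₀ v w) +
            (cp (BX d L) β₀ 0 v - cf (BX d L) β₀ 0 v))
        rw [← div_eq_inv_mul, le_div_iff₀ hm2]
        have k1 : (cp (BX d L) β₀ 0 w - cf (BX d L) β₀ 0 w) * m ^ 2 ≤
            (cp (BX d L) β₀ 0 w - cf (BX d L) β₀ 0 w) * cp (BX d L) β₀ 0 v :=
          mul_le_mul_of_nonneg_left c3 (by linarith [c2.2.1])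
        have k2 : (cp (BX d L) β₀ 0 v - cf (BX d L) β₀ 0 v) * cp (BX d L) β₀ 0 w ≤
            (cp (BX d L) β₀ 0 v - cf (BX d L) β₀ 0 v) * 1 :=
          mul_le_mul_of_nonneg_left c2.2.2 (by linarith [c1.2.1])
        nlinarith
    have hself : ∀ (L : ℕ) (β : ℝ), cp (BX d L) β 0 0 = 1 ∧ cf (BX d L) β 0 0 = 1 := by
      intro L β
      have sq : ∀ T : Finset (Vx d), spin T (0 : Vx d) * spin T (0 : Vx d) = 1 := by
        intro T
        unfold spin
        split_ifs <;> norm_num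
      have pos : ∀ E : Finset (Ed d), 0 < GI (BX d L) E β (fun _ => 1) := by
        intro E
        unfold GI
        refine Finset.sum_pos (fun T _ => ?_) ⟨∅, Finset.empty_mem_powerset _⟩
        rw [one_mul]
        exact Real.exp_pos _
      constructor
      · unfold cp av
        rw [show (fun T : Finset (Vx d) => spin T (0 : Vx d) * spin T (0 : Vx d)) = fun _ => 1 from
          funext sq]
        exact div_self (pos _).ne'
      · unfold cf av
        rw [show (fun T : Finset (Vx d) => spin T (0 : Vx d) * spin T (0 : Vx d)) = fun _ => 1 from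
          funext sq]
        exact div_self (pos _).ne'
    have base : Filter.Tendsto (D 0) atTop (nhds 0) := by
      have : D 0 = fun _ => 0 := by
        funext L
        show cp (BX d L) β₀ 0 0 - cf (BX d L) β₀ 0 0 = 0
        rw [(hself L β₀).1, (hself L β₀).2, sub_self]
      rw [this]
      exact tendsto_const_nhds
    have hsymp : ∀ (L : ℕ) (u v : Vx d), cp (BX d L) β₀ u v = cp (BX d L) β₀ v u := by
      intro L u v
      unfold cp
      rw [show (fun T : Finset (Vx d) => spin T u * spin T v) = fun T => spin T v * spin T u from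
        funext fun T => mul_comm _ _]
    have hsymf : ∀ (L : ℕ) (u v : Vx d), cf (BX d L) β₀ u v = cf (BX d L) β₀ v u := by
      intro L u v
      unfold cf
      rw [show (fun T : Finset (Vx d) => spin T u * spin T v) = fun T => spin T v * spin T u from
        funext fun T => mul_comm _ _]
    have all : ∀ v : Vx d, Filter.Tendsto (D v) atTop (nhds 0) := by
      intro v
      refine step_ind (fun v => Filter.Tendsto (D v) atTop (nhds 0)) base ?_ ?_ v
      · intro y i hy
        exact prop y (y + uv i) (nn_lim β₀ hβ₀ i (hgood i) y) hy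
      · intro y i hy
        refine prop (y + uv i) y ?_ hy
        have := nn_lim β₀ hβ₀ i (hgood i) y
        refine this.congr fun L => ?_
        rw [hsymp L y, hsymf L y]
    have hε : 0 < m ^ 2 - c := by linarith
    have ev := (all x).eventually (gt_mem_nhds hε)
    filter_upwards [ev, hmem x] with L h1 h2
    have q1 := hcp x L h2
    have q2 : cf (BX d L) β₀ 0 x ≤ cf (BX d L) β₂ 0 x :=
      cf_mono _ _ (Finset.Subset.refl _) β₀ β₂ hβ₀ hb2.le _ _ (hz L) h2
    have q3 : cp (BX d L) β₀ 0 x - cf (BX d L) β₀ 0 x < m ^ 2 - c := h1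
    show c ≤ cf (BX d L) β₂ 0 x
    linarith

end Pool.Agent.TC
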