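import Pool.Agent.TC.Lim
import Pool.Agent.C1s.Main2
import Pool.Agent.TC.I1
import Pool.Agent.TC.L2
import Pool.Agent.TC.L10

/-! Assembly: the single current on the boxes dominates products of free correlations, and percolates above
twice the critical inverse temperature. -/

set_option autoImplicit false

namespace Pool.Agent.TC

open Finset Filter MeasureTheory Pool.Agent.SRC

section link

variable {d : ℕ} (E : Finset (Ed d))

private theorem fin_inc (e : Ed d) (v : Vx d) : inc e.1 (tip e) v =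
    if e.1 = v ∨ tip e = v then 1 else 0 := by
  have h : e.1 ≠ tip e := by
    intro h
    have h1 := congrFun h e.2
    unfold tip uv at h1
    rw [Pi.add_apply, Pi.single_eq_same] at h1
    omega
  unfold inc
  by_cases h1 : e.1 = v
  · have h2 : tip e ≠ v := fun h2 => h (h1.trans h2.symm)
    rw [if_pos h1, if_neg h2, if_pos (Or.inl h1), add_zero]
  · by_cases h2 : tip e = v
    · rw [if_neg h1, if_pos h2, if_pos (Or.inr h2), zero_add]
    · rw [if_neg h1, if_neg h2, if_neg (not_or.2 ⟨h1, h2⟩), add_zero]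

private theorem fin_src (n : E → ℕ) :
    Src (fun e : E => (e : Ed d).1) (fun e : E => tip (e : Ed d)) n (fun _ => 0) ↔ srcless E n := by
  unfold Src srcless
  refine forall_congr' fun v => ?_
  have h1 : ∑ e : E, (n e : ZMod 2) * inc ((e : Ed d).1) (tip (e : Ed d)) v =
      ((∑ e : E, if (e : Ed d).1 = v ∨ tip (e : Ed d) = v then n e else 0 : ℕ) : ZMod 2) := by
    rw [Nat.cast_sum]
    refine Finset.sum_congr rfl fun e _ => ?_
    rw [fin_inc]
    by_cases h : (e : Ed d).1 = v ∨ tip (e : Ed d) = v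
    · rw [if_pos h, if_pos h, mul_one]
    · rw [if_neg h, if_neg h, mul_zero, Nat.cast_zero]
  rw [h1, ZMod.natCast_eq_zero_iff_even]

private theorem fin_conn (n : E → ℕ) (u v : Vx d) :
    Cn (fun e : E => (e : Ed d).1) (fun e : E => tip (e : Ed d)) (fun e => 0 < n e) u v ↔
      conn {e | 0 < SRC.ext E n e} u v := by
  classical
  unfold Cn conn
  have h : (fun p q : Vx d => ∃ o : E, 0 < n o ∧ (((o : Ed d).1 = p ∧ tip (o : Ed d) = q) ∨
      ((o : Ed d).1 = q ∧ tip (o : Ed d) = p))) = adj {e | 0 < SRC.ext E n e} := by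
    funext p q
    apply propext
    unfold adj
    constructor
    · rintro ⟨⟨⟨v0, i⟩, ho⟩, h1, h2⟩
      have h3 : (v0, i) ∈ {e : Ed d | 0 < SRC.ext E n e} := by
        show 0 < SRC.ext E n (v0, i)
        unfold SRC.ext
        rw [dif_pos ho]
        exact h1
      rcases h2 with ⟨h4, h5⟩ | ⟨h4, h5⟩
      · refine ⟨i, Or.inl ⟨?_, ?_⟩⟩
        · have h4' : v0 = p := h4
          rw [← h4']; exact h3
        · have h4' : v0 = p := h4
          rw [← h4']; exact h5.symm
      · refine ⟨i, Or.inr ⟨?_, ?_⟩⟩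
        · have h4' : v0 = q := h4
          rw [← h4']; exact h3
        · have h4' : v0 = q := h4
          rw [← h4']; exact h5.symm
    · rintro ⟨i, ⟨h1, h2⟩ | ⟨h1, h2⟩⟩
      · have h3 : 0 < SRC.ext E n (p, i) := h1
        unfold SRC.ext at h3
        by_cases h4 : (p, i) ∈ E
        · rw [dif_pos h4] at h3
          exact ⟨⟨(p, i), h4⟩, h3, Or.inl ⟨rfl, h2.symm⟩⟩
        · rw [dif_neg h4] at h3
          exact absurd h3 (lt_irrefl 0)
      · have h3 : 0 < SRC.ext E n (q, i) := h1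
        unfold SRC.ext at h3
        by_cases h4 : (q, i) ∈ E
        · rw [dif_pos h4] at h3
          exact ⟨⟨(q, i), h4⟩, h3, Or.inr ⟨rfl, h2.symm⟩⟩
        · rw [dif_neg h4] at h3
          exact absurd h3 (lt_irrefl 0)
  rw [h]

private theorem fin_W (β : ℝ) (n : E → ℕ) : cwt β E n = W (fun _ : E => β) n := rfl

private theorem fin_one (β : ℝ) : cS β E (fun _ => 1) =
    ZD (fun e : E => (e : Ed d).1) (fun e : E => tip (e : Ed d)) (fun _ => β) (fun _ => 0) := by
  classical
  unfold cS ZD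
  refine tsum_congr fun n => ?_
  by_cases h : srcless E n
  · rw [ind_true h, if_pos ((fin_src E n).2 h), fin_W]
    ring
  · rw [ind_false h, if_neg fun h' => h ((fin_src E n).1 h')]
    ring

private theorem fin_two (β : ℝ) (u x : Vx d) :
    cS β E (fun n => ind (n ∈ {n : Ed d → ℕ | conn {e | 0 < n e} u x})) =
    ZC (fun e : E => (e : Ed d).1) (fun e : E => tip (e : Ed d)) (fun _ => β) u x := by
  classical
  unfold cS ZC
  refine tsum_congr fun n => ?_
  show ind (srcless E n) * cwt β E n *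
    ind (SRC.ext E n ∈ {n : Ed d → ℕ | conn {e | 0 < n e} u x}) = _
  have h0 : (SRC.ext E n ∈ {n : Ed d → ℕ | conn {e | 0 < n e} u x}) ↔
      conn {e | 0 < SRC.ext E n e} u x := Iff.rfl
  by_cases h : srcless E n
  · by_cases h2 : conn {e | 0 < SRC.ext E n e} u x
    · rw [ind_true h, ind_true (h0.2 h2), if_pos ⟨(fin_src E n).2 h, (fin_conn E n u x).2 h2⟩, fin_W]
      ring
    · rw [ind_false fun h' => h2 (h0.1 h'), if_neg fun h' => h2 ((fin_conn E n u x).1 h'.2)]
      ring
  · rw [ind_false h, if_neg fun h' => h ((fin_src E n).1 h'.1)]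
    ring

end link

private theorem fin_rep {d : ℕ} (S : Finset (Vx d)) (β : ℝ) (u x : Vx d) (hu : u ∈ S)
    (hx : x ∈ S) : (2 : ℝ) ^ S.card * ZD (fun e : edg S => (e : Ed d).1)
      (fun e : edg S => tip (e : Ed d)) (fun _ => β) (inc u x) =
    GI S (edg S) β (fun T => spin T u * spin T x) := by
  classical
  have h1 := (spin_rep S (fun e : edg S => (e : Ed d).1) (fun e : edg S => tip (e : Ed d))
    (fun e => (mem_edg S e.1).1 e.2) u x hu hx (fun _ => β)).2
  rw [h1]
  unfold GI
  refine Finset.sum_congr rfl fun T _ => ?_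
  congr 2
  rw [← Finset.mul_sum]
  congr 1
  exact Finset.sum_coe_sort (edg S) (fun e => bond e T)

private theorem fin_inc0 {d : ℕ} (u : Vx d) : inc u u = fun _ => (0 : ZMod 2) := by
  funext v
  unfold inc
  exact CharTwo.add_self_eq_zero _

private theorem fin_GI0 {d : ℕ} (S : Finset (Vx d)) (β : ℝ) (u : Vx d) :
    GI S (edg S) β (fun T => spin T u * spin T u) = GI S (edg S) β (fun _ => 1) := by
  unfold GI
  refine Finset.sum_congr rfl fun T _ => ?_
  congr 1
  show spin T u * spin T u = 1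
  unfold spin
  split_ifs <;> norm_num

theorem GI_pos {d : ℕ} (S : Finset (Vx d)) (E : Finset (Ed d)) (β : ℝ) :
    0 < GI S E β (fun _ => 1) := by
  unfold GI
  refine Finset.sum_pos (fun T _ => ?_) ⟨∅, Finset.empty_mem_powerset S⟩
  rw [one_mul]
  exact Real.exp_pos _

/-- The single current connects `u` and `x` with probability at least `<u x>_β <u x>_{β/2}`. -/
theorem curP_ge {d : ℕ} (S : Finset (Vx d)) (β : ℝ) (hβ : 0 < β) (u x : Vx d) (hu : u ∈ S)
    (hx : x ∈ S) : cf S β u x * cf S (β / 2) u x ≤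
      curP β (edg S) {n | conn {e | 0 < n e} u x} := by
  classical
  have hm := C1s.main_P2 (fun e : edg S => (e : Ed d).1) (fun e : edg S => tip (e : Ed d)) S
    (fun e => (mem_edg S e.1).1 e.2) u x hu hx (fun _ => β / 2) (fun _ => by positivity)
  have h3 : (fun _ : edg S => 2 * (β / 2)) = fun _ => β := by
    funext _; ring
  rw [h3] at hm
  have hp : (0 : ℝ) < 2 ^ S.card := by positivity
  have e1 := fin_rep S β u x hu hx
  have e2 := fin_rep S (β / 2) u x hu hx
  have e3 := fin_rep S β u u hu hu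
  have e4 := fin_rep S (β / 2) u u hu hu
  rw [fin_inc0, fin_GI0] at e3 e4
  have p1 := GI_pos S (edg S) β
  have p2 := GI_pos S (edg S) (β / 2)
  unfold curP cf av
  rw [fin_one, fin_two, ← e1, ← e2, ← e3, ← e4]
  set A := ZD (fun e : edg S => (e : Ed d).1) (fun e : edg S => tip (e : Ed d)) (fun _ => β) (inc u x)
  set B := ZD (fun e : edg S => (e : Ed d).1) (fun e : edg S => tip (e : Ed d)) (fun _ => β / 2)
    (inc u x)
  set C := ZD (fun e : edg S => (e : Ed d).1) (fun e : edg S => tip (e : Ed d)) (fun _ => β)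
    (fun _ => 0)
  set D := ZD (fun e : edg S => (e : Ed d).1) (fun e : edg S => tip (e : Ed d)) (fun _ => β / 2)
    (fun _ => 0)
  have hC : 0 < C := by
    rw [← e3] at p1
    exact (mul_pos_iff_of_pos_left hp).1 p1
  have hD : 0 < D := by
    rw [← e4] at p2
    exact (mul_pos_iff_of_pos_left hp).1 p2
  rw [mul_div_mul_left _ _ hp.ne', mul_div_mul_left _ _ hp.ne', div_mul_div_comm,
    div_le_div_iff₀ (mul_pos hC hD) hC]
  nlinarith [hm, hC]

private theorem fin_mem {d : ℕ} (x : Vx d) : ∀ᶠ L : ℕ in atTop,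
    x ∈ Finset.Icc (fun _ : Fin d => -(L : ℤ)) (fun _ => (L : ℤ)) := by
  filter_upwards [eventually_ge_atTop (∑ j, (x j).natAbs)] with L hL
  have h1 : ∀ j, |x j| ≤ (L : ℤ) := by
    intro j
    have h2 : (x j).natAbs ≤ L := le_trans (Finset.single_le_sum
      (f := fun j => (x j).natAbs) (fun _ _ => Nat.zero_le _) (Finset.mem_univ j)) hL
    rw [Int.abs_eq_natAbs]
    exact_mod_cast h2
  rw [Finset.mem_Icc]
  exact ⟨fun j => (abs_le.1 (h1 j)).1, fun j => (abs_le.1 (h1 j)).2⟩

/-- Main theorem in terms of the plus magnetisation `mp`. -/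
theorem main2 {d : ℕ} (hd : 1 ≤ d) (β₀ β m : ℝ) (h0 : 0 ≤ β₀) (h : 2 * β₀ < β) (hm : 0 < m)
    (hmag : ∀ L : ℕ, m ≤ mp (Finset.Icc (fun _ : Fin d => -(L : ℤ)) (fun _ => (L : ℤ))) β₀ 0) :
    ∃ μ : Measure (Ed d → ℕ), IsProbabilityMeasure μ ∧
      (∀ (F : Finset (Ed d)) (k : Ed d → ℕ),
        Tendsto (fun L => curP β (boxE d L) (cyl F k)) atTop (nhds (μ.real (cyl F k)))) ∧
      0 < μ {n | {v | conn {e | 0 < n e} 0 v}.Infinite} := by
  have hβ : 0 < β := by linarith
  obtain ⟨μ, hμ, hlim⟩ := ex_mu β hβ (boxE d) (boxE_mono d) (boxE_exh d)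
  refine ⟨μ, hμ, hlim, ?_⟩
  have hc : (0 : ℝ) < m ^ 2 / 2 := by positivity
  have h1 : ∀ x : Vx d, ∀ᶠ L in atTop,
      (m ^ 2 / 2) ^ 2 ≤ curP β (boxE d L) {n | conn {e | 0 < n e} 0 x} := by
    intro x
    have h2 := free_lro hd β₀ (β / 2) h0 (by linarith) m hm.le hmag x (m ^ 2 / 2) (by
      have : 0 < m ^ 2 := by positivity
      linarith)
    filter_upwards [h2, fin_mem x, fin_mem (0 : Vx d)] with L h3 h4 h5
    have h6 := cf_mono (Finset.Icc (fun _ : Fin d => -(L : ℤ)) (fun _ => (L : ℤ)))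
      (Finset.Icc (fun _ : Fin d => -(L : ℤ)) (fun _ => (L : ℤ))) (Finset.Subset.refl _)
      (β / 2) β (by positivity) (by linarith) 0 x h5 h4
    have h7 := curP_ge (Finset.Icc (fun _ : Fin d => -(L : ℤ)) (fun _ => (L : ℤ))) β hβ 0 x h5 h4
    refine le_trans ?_ h7
    rw [sq]
    exact mul_le_mul (h3.trans h6) h3 hc.le (hc.le.trans (h3.trans h6))
  have h3 := perc_lim hd β hβ _ h1 μ hμ hlim
  have h4 : 0 < μ.real {n : Ed d → ℕ | {v | conn {e | 0 < n e} 0 v}.Infinite} :=
    lt_of_lt_of_le (by positivity) h3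
  by_contra hcon
  have h5 : μ {n : Ed d → ℕ | {v | conn {e | 0 < n e} 0 v}.Infinite} = 0 :=
    nonpos_iff_eq_zero.mp (not_lt.mp hcon)
  rw [Measure.real, h5] at h4
  simp at h4

end Pool.Agent.TC
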